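import Pool.Agent.Lib_helper10.LEN.Pig

/-!
# Slow activation
-/

set_option autoImplicit false

namespace Pool.Agent.LEN

open Pool.Agent.CK Pool.Agent.RF Filter
open Pool.Agent.LIN (act mem_act cost pb_clk pb_cost)

/-- the cost of the first `s` theories at length `N` -/
def pcost (en : ℕ → Th) (s N : ℕ) : ℕ :=
  N * (N * ∑ j ∈ Finset.range s, Dep (en j).2 N * Dep (en j).2 N) + (N + 1) ^ s

theorem pb_dep (k : ℕ) : SEQ_PB (fun N => Dep k N) :=
  SEQ_add (SEQ_add (SEQ_mul (SEQ_const 3) SEQ_id) (pb_clk k)) (SEQ_const 1)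

theorem pb_sum (en : ℕ → Th) (s : ℕ) :
    SEQ_PB (fun N => ∑ j ∈ Finset.range s, Dep (en j).2 N * Dep (en j).2 N) := by
  induction s with
  | zero =>
    have h : (fun N => ∑ j ∈ Finset.range 0, Dep (en j).2 N * Dep (en j).2 N) = fun _ => 0 := by
      funext N
      simp
    rw [h]
    exact SEQ_const 0
  | succ s ih =>
    have h : (fun N => ∑ j ∈ Finset.range (s + 1), Dep (en j).2 N * Dep (en j).2 N) =
        fun N => (∑ j ∈ Finset.range s, Dep (en j).2 N * Dep (en j).2 N) +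
          Dep (en s).2 N * Dep (en s).2 N := by
      funext N
      rw [Finset.sum_range_succ]
    rw [h]
    exact SEQ_add ih (SEQ_mul (pb_dep _) (pb_dep _))

theorem pb_pcost (en : ℕ → Th) (s : ℕ) : SEQ_PB (fun N => pcost en s N) :=
  SEQ_add (SEQ_mul SEQ_id (SEQ_mul SEQ_id (pb_sum en s)))
    (SEQ_pow (SEQ_add SEQ_id (SEQ_const 1)) s)

theorem pcost_mono (en : ℕ → Th) (s : ℕ) {N N' : ℕ} (h : N ≤ N') :
    pcost en s N ≤ pcost en s N' := by
  unfold pcost
  refine Nat.add_le_add (Nat.mul_le_mul h (Nat.mul_le_mul h (Finset.sum_le_sum fun j _ => ?_)))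
    (Nat.pow_le_pow_left (by omega) _)
  exact Nat.mul_le_mul (dep_mono _ h) (dep_mono _ h)

/-- functions of subexponential growth -/
theorem sub_pow {b : ℕ → ℕ} (hb1 : ∀ n, n ≤ b n) (hb2 : ∀ k, ∀ᶠ n in atTop, b n ^ k ≤ 2 ^ n)
    (E : ℕ) : ∀ᶠ m in atTop, (b m + 2) ^ E ≤ 2 ^ m := by
  filter_upwards [hb2 (2 * E), eventually_ge_atTop 2] with m h1 h2
  refine le_trans ?_ h1
  rw [pow_mul]
  refine Nat.pow_le_pow_left ?_ E
  have h3 := hb1 m
  nlinarith

theorem exists_act2 (en : ℕ → Th) {b : ℕ → ℕ} (hb : Monotone b) (hb1 : ∀ n, n ≤ b n)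
    (hb2 : ∀ k, ∀ᶠ n in atTop, b n ^ k ≤ 2 ^ n) : ∃ g : ℕ → ℕ, StrictMono g ∧
    (∀ s N, g s ≤ N → cost en (s + 1) N < 2 ^ N) ∧
    ∀ s m, g s ≤ b m → pcost en (s + 1) (b m) ≤ 2 ^ m := by
  have h1 : ∀ s, ∀ᶠ m : ℕ in atTop, (∀ N, m ≤ N → cost en (s + 1) N < 2 ^ N) ∧
      ∀ k, m ≤ b k → pcost en (s + 1) (b k) ≤ 2 ^ k := by
    intro s
    refine (eventually_forall_ge_atTop.2 (SEQ_lt (pb_cost en (s + 1)))).and ?_
    obtain ⟨E, hE⟩ := pb_pcost en (s + 1)
    obtain ⟨k0, hk0⟩ := (sub_pow hb1 hb2 E).exists_forall_of_atTop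
    filter_upwards [eventually_gt_atTop (b k0)] with m hm k hk
    have h2 : k0 ≤ k := by
      by_contra hcon
      have := hb (Nat.not_le.1 hcon).le
      omega
    exact (hE (b k)).trans (hk0 k h2)
  obtain ⟨g, hg1, hg2⟩ := SEQ_gen h1 (fun _ _ => 0)
  exact ⟨g, hg1, fun s N hN => (hg2 s).1.1 N hN, fun s m hm => (hg2 s).1.2 m hm⟩

/-- the cost of the active theories -/
theorem act_pcost {P : Par} (hg : StrictMono P.g) {L N : ℕ} (hL : L ≤ P.b N)
    (h : ∀ s m, P.g s ≤ P.b m → pcost P.en (s + 1) (P.b m) ≤ 2 ^ m) :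
    ∃ J, (∀ j, P.g j < L → j < J) ∧ cdep P L ≤ 2 ^ N ∧ (L + 1) ^ J ≤ 2 ^ N := by
  rcases (act P.g L).eq_empty_or_nonempty with h0 | h0
  · refine ⟨0, fun j hj => ?_, ?_, ?_⟩
    · have : j ∈ act P.g L := (mem_act hg).2 hj.le
      rw [h0] at this
      exact absurd this (Finset.notMem_empty j)
    · unfold cdep
      rw [h0]
      simp
    · rw [pow_zero]
      exact Nat.one_le_two_pow
  · set s := (act P.g L).max' h0 with hs
    have h1 : P.g s ≤ L := (mem_act hg).1 (Finset.max'_mem _ _)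
    have h2 : pcost P.en (s + 1) L ≤ 2 ^ N :=
      (pcost_mono _ _ hL).trans (h s N (h1.trans hL))
    refine ⟨s + 1, fun j hj => ?_, ?_, ?_⟩
    · exact Nat.lt_succ_of_le (Finset.le_max' _ _ ((mem_act hg).2 hj.le))
    · refine le_trans ?_ h2
      unfold cdep pcost
      refine le_trans (Nat.mul_le_mul_left _ (Nat.mul_le_mul_left _ ?_)) (Nat.le_add_right _ _)
      refine Finset.sum_le_sum_of_subset fun j hj => ?_
      rw [Finset.mem_range]
      exact Nat.lt_succ_of_le (Finset.le_max' _ _ hj)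
    · refine le_trans ?_ h2
      unfold pcost
      exact Nat.le_add_left _ _

/-! ## Plans -/

/-- a plan can be continued with good words -/
theorem exists_plan {P : Par} (hg : StrictMono P.g)
    (hcost : ∀ s N, P.g s ≤ N → cost P.en (s + 1) N < 2 ^ N) {m L : ℕ} {A : Lang}
    {w : ℕ → List Bool} (h : GoodG P w m L A) :
    ∃ w', (∀ t < L, w' t = w t) ∧ ∀ m', GoodG P w' m m' A := by
  classical
  choose wd hwd using fun t O => exists_word hg hcost t O
  let W : ℕ → Lang → List Bool := fun t X => if t < L then w t else wd t (join P.R X)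
  let B : ℕ → Lang := fun t => Nat.rec A (fun t X => if m ≤ t then stp P (W t X) t X else A) t
  have hB : ∀ t, B t = grow P (fun t => W t (B t)) m A t := by
    intro t
    induction t with
    | zero => rfl
    | succ t ih =>
      show (if m ≤ t then stp P (W t (B t)) t (B t) else A) =
        (if m ≤ t then stp P (W t (B t)) t (grow P (fun t => W t (B t)) m A t) else A)
      rw [← ih]
  have hW : ∀ t < L, W t (B t) = w t := fun t ht => if_pos ht
  refine ⟨fun t => W t (B t), hW, fun m' t h1 _ => ?_⟩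
  by_cases ht : t < L
  · have e1 : grow P (fun t => W t (B t)) m A t = grow P w m A t :=
      grow_congr fun s _ hs => hW s (by omega)
    show GoodW P t (join P.R (grow P (fun t => W t (B t)) m A t)) (W t (B t))
    rw [e1, hW t ht]
    exact h t h1 ht
  · show GoodW P t (join P.R (grow P (fun t => W t (B t)) m A t)) (W t (B t))
    rw [← hB]
    have e2 : W t (B t) = wd t (join P.R (B t)) := if_neg ht
    rw [e2]
    exact hwd t _

end Pool.Agent.LEN
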