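import Mathlib

/-!
# A union bound
-/

set_option autoImplicit false

namespace Pool.Agent.LEN

/-- If for every coordinate few values are bad, given the other coordinates, then there is a point
without bad coordinates. -/
theorem avoid {ι : Type} [Fintype ι] [DecidableEq ι] {Ω : ι → Type} [∀ i, Fintype (Ω i)]
    (Bad : (i : ι) → ((j : ι) → Ω j) → Finset (Ω i))
    (hind : ∀ i x y, Bad i (Function.update x i y) = Bad i x)
    (hcard : ∀ i x, Fintype.card ι * (Bad i x).card < Fintype.card (Ω i))
    (hne : Nonempty ((j : ι) → Ω j)) :
    ∃ x, ∀ i, x i ∉ Bad i x := by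
  classical
  by_contra hcon
  push Not at hcon
  rcases isEmpty_or_nonempty ι with h0 | h0
  · obtain ⟨i, -⟩ := hcon hne.some
    exact h0.elim i
  set E : ι → Finset ((j : ι) → Ω j) := fun i => Finset.univ.filter fun x => x i ∈ Bad i x with hE
  have h1 : (Finset.univ : Finset ((j : ι) → Ω j)) ⊆ Finset.univ.biUnion E := by
    intro x _
    obtain ⟨i, hi⟩ := hcon x
    exact Finset.mem_biUnion.2 ⟨i, Finset.mem_univ _, Finset.mem_filter.2 ⟨Finset.mem_univ _, hi⟩⟩
  have hX : 0 < Fintype.card ((j : ι) → Ω j) := Fintype.card_pos
  -- every event is rare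
  have key : ∀ i, Fintype.card ι * (E i).card < Fintype.card ((j : ι) → Ω j) := by
    intro i
    have hpos : 0 < Fintype.card (Ω i) := by
      have := hcard i hne.some
      omega
    -- double counting
    have h2 : ∑ x : (j : ι) → Ω j, (Bad i x).card = (E i).card * Fintype.card (Ω i) := by
      have e1 : ∑ x : (j : ι) → Ω j, (Bad i x).card =
          (Finset.univ.filter fun p : ((j : ι) → Ω j) × Ω i => p.2 ∈ Bad i p.1).card := by
        rw [Finset.card_filter, Fintype.sum_prod_type]
        refine Finset.sum_congr rfl fun x _ => ?_
        rw [← Finset.card_filter]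
        congr 1
        ext y
        simp
      have e2 : (E i).card * Fintype.card (Ω i) =
          (Finset.univ.filter fun p : ((j : ι) → Ω j) × Ω i => p.1 i ∈ Bad i p.1).card := by
        have e3 : (Finset.univ.filter fun p : ((j : ι) → Ω j) × Ω i => p.1 i ∈ Bad i p.1) =
            E i ×ˢ Finset.univ := by
          ext p
          simp [hE]
        rw [e3, Finset.card_product, Finset.card_univ]
      rw [e1, e2]
      refine Finset.card_bij (fun p _ => (Function.update p.1 i p.2, p.1 i)) ?_ ?_ ?_
      · intro p hp
        rw [Finset.mem_filter] at hp ⊢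
        refine ⟨Finset.mem_univ _, ?_⟩
        show Function.update p.1 i p.2 i ∈ Bad i (Function.update p.1 i p.2)
        rw [hind, Function.update_self]
        exact hp.2
      · rintro ⟨x, y⟩ _ ⟨x', y'⟩ _ hpq
        simp only [Prod.mk.injEq] at hpq
        obtain ⟨h3, h4⟩ := hpq
        have h5 : y = y' := by
          have := congrFun h3 i
          rwa [Function.update_self, Function.update_self] at this
        have h6 : x = x' := by
          funext j
          by_cases hj : j = i
          · subst hj; exact h4
          · have := congrFun h3 j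
            rwa [Function.update_of_ne hj, Function.update_of_ne hj] at this
        rw [h5, h6]
      · rintro ⟨x, y⟩ hp
        rw [Finset.mem_filter] at hp
        refine ⟨(Function.update x i y, x i), ?_, ?_⟩
        · rw [Finset.mem_filter]
          refine ⟨Finset.mem_univ _, ?_⟩
          show x i ∈ Bad i (Function.update x i y)
          rw [hind]
          exact hp.2
        · simp
    have h3 : Fintype.card ι * ((E i).card * Fintype.card (Ω i)) <
        Fintype.card ((j : ι) → Ω j) * Fintype.card (Ω i) := by
      rw [← h2, Finset.mul_sum]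
      calc ∑ x : (j : ι) → Ω j, Fintype.card ι * (Bad i x).card
          < ∑ _x : (j : ι) → Ω j, Fintype.card (Ω i) :=
            Finset.sum_lt_sum_of_nonempty ⟨hne.some, Finset.mem_univ _⟩ fun x _ => hcard i x
        _ = _ := by rw [Finset.sum_const, Finset.card_univ, smul_eq_mul]
    rw [← mul_assoc] at h3
    exact lt_of_mul_lt_mul_right h3 (Nat.zero_le _)
  have h4 : Fintype.card ((j : ι) → Ω j) ≤ ∑ i, (E i).card := by
    rw [← Finset.card_univ]
    exact (Finset.card_le_card h1).trans Finset.card_biUnion_le
  have h5 : Fintype.card ι * ∑ i, (E i).card < Fintype.card ι * Fintype.card ((j : ι) → Ω j) := by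
    rw [Finset.mul_sum]
    calc ∑ i, Fintype.card ι * (E i).card < ∑ _i : ι, Fintype.card ((j : ι) → Ω j) :=
          Finset.sum_lt_sum_of_nonempty ⟨h0.some, Finset.mem_univ _⟩ fun i _ => key i
      _ = _ := by rw [Finset.sum_const, Finset.card_univ, smul_eq_mul]
  have h6 := lt_of_mul_lt_mul_left h5 (Nat.zero_le _)
  omega

end Pool.Agent.LEN
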