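import Pool.Agent.Lib_helper10.LEN.Grow

/-!
# Existence of certificates
-/

set_option autoImplicit false

namespace Pool.Agent.LEN

open Pool.Agent.CK Pool.Agent.RF
open Pool.Agent.LIN (cdw cdw_inj cdw_len padW padW_inj padW_true padW_closed act mem_act cost
  exists_touch exists_free ins ins_iff)

/-- goals with certificates -/
def CertG (m : ℕ) (G : Lang → Prop) : Prop := ∀ O, G O → ∃ Q : Finset (List Bool),
  Q.card ≤ 2 ^ m ∧ ∀ O' : Lang, (∀ q ∈ Q, O' q = O q) → G O'

/-- the number of questions in the certificates for consistency -/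
def cdep (P : Par) (L : ℕ) : ℕ :=
  L * (L * ∑ j ∈ act P.g L, Dep (P.en j).2 L * Dep (P.en j).2 L)

theorem dep_mono (k : ℕ) {n n' : ℕ} (h : n ≤ n') : Dep k n ≤ Dep k n' := by
  unfold Dep
  have := QRY_clkS_mono k h
  omega

theorem exists_cert {P : Par} (hg : StrictMono P.g)
    (hcost : ∀ s N, P.g s ≤ N → cost P.en (s + 1) N < 2 ^ N) (hna : ∀ n, n ≤ P.a n)
    {m L : ℕ} (hd : cdep P L ≤ 2 ^ m) {G : Lang → Prop} (hG : CertG m G)
    (w : ℕ → List Bool) (A : Lang) :
    ∃ Q : Finset (List Bool), Q.card ≤ 2 ^ (2 * m + 3) ∧ Cert P w m L G A Q := by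
  classical
  -- consistency
  have h1 : ∀ t j k : ℕ, ∃ Q : List (List Bool), Q.length ≤ Dep (P.en j).2 k * Dep (P.en j).2 k ∧
      (¬ (RF.Con (P.en j) k).True (join P.R (grow P w m A t)) →
      ∀ O' : Lang, (∀ q ∈ Q, O' q = join P.R (grow P w m A t) q) →
        ¬ (RF.Con (P.en j) k).True O') := by
    intro t j k
    by_cases h : (RF.Con (P.en j) k).True (join P.R (grow P w m A t))
    · exact ⟨[], Nat.zero_le _, fun h' => absurd h h'⟩
    · obtain ⟨Q, h2, -, h3⟩ := not_conT_queries (fun h' => h (con_true.2 h'))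
      exact ⟨Q, h2, fun _ O' hO' h' => h3 O' hO' (con_true.1 h')⟩
  choose q hq1 hq2 using h1
  set Q1 : Finset (List Bool) := (Finset.range L).biUnion fun t => (Finset.range L).biUnion
    fun k => (act P.g L).biUnion fun j => (q t j k).toFinset with hQ1
  have hc1 : Q1.card ≤ 2 ^ m := by
    refine le_trans ?_ hd
    unfold cdep
    refine Finset.card_biUnion_le.trans ((Finset.sum_le_card_nsmul _ _ _ fun t _ => ?_).trans
      (le_of_eq (by rw [Finset.card_range, smul_eq_mul])))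
    refine Finset.card_biUnion_le.trans ((Finset.sum_le_card_nsmul _ _ _ fun k hk => ?_).trans
      (le_of_eq (by rw [Finset.card_range, smul_eq_mul])))
    refine Finset.card_biUnion_le.trans (Finset.sum_le_sum fun j _ => ?_)
    rw [Finset.mem_range] at hk
    exact (List.toFinset_card_le _).trans ((hq1 t j k).trans
      (Nat.mul_le_mul (dep_mono _ hk.le) (dep_mono _ hk.le)))
  -- the goal
  obtain ⟨Q2, hc2, hQ2⟩ : ∃ Q : Finset (List Bool), Q.card ≤ 2 ^ m ∧
      (G (join P.R (grow P w m A L)) →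
        ∀ O' : Lang, (∀ q ∈ Q, O' q = join P.R (grow P w m A L) q) → G O') := by
    by_cases h : G (join P.R (grow P w m A L))
    · obtain ⟨Q, h2, h3⟩ := hG _ h
      exact ⟨Q, h2, fun _ => h3⟩
    · exact ⟨∅, by simp, fun h' => absurd h' h⟩
  -- the small range
  obtain ⟨Q3, hc3, hQ3⟩ := exists_touch hg hcost m (join P.R A)
  refine ⟨Q1 ∪ (Q2 ∪ Q3), ?_, ⟨?_, ?_, ?_⟩⟩
  · have e1 := Finset.card_union_le Q1 (Q2 ∪ Q3)
    have e2 := Finset.card_union_le Q2 Q3
    have e3 : 2 ^ m ≤ 2 ^ (2 * m + 1) := Nat.pow_le_pow_right (by norm_num) (by omega)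
    have e4 : 2 ^ (2 * m + 2) = 2 * 2 ^ (2 * m + 1) := by rw [← pow_succ']
    have e5 : 2 ^ (2 * m + 3) = 2 * 2 ^ (2 * m + 2) := by rw [← pow_succ']
    omega
  · intro t ht1 ht2 j k n hj hk hn hf O' hO'
    refine hq2 t j k hf O' fun x hx => hO' x (Finset.mem_union_left _ ?_)
    have h3 := hna n
    rw [hQ1, Finset.mem_biUnion]
    refine ⟨t, Finset.mem_range.2 ht2, ?_⟩
    rw [Finset.mem_biUnion]
    refine ⟨k, Finset.mem_range.2 (by omega), ?_⟩
    rw [Finset.mem_biUnion]
    exact ⟨j, (mem_act hg).2 (by omega), List.mem_toFinset.2 hx⟩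
  · exact fun h O' hO' => hQ2 h O' fun x hx =>
      hO' x (Finset.mem_union_right _ (Finset.mem_union_left _ hx))
  · exact fun O' hO' j hj s hs c hc => hQ3 O' (fun x hx =>
      hO' x (Finset.mem_union_right _ (Finset.mem_union_right _ hx))) j hj s hs c hc

/-! ## Bad words -/

/-- few words are bad -/
theorem bad_words {P : Par} (hg : StrictMono P.g)
    (hcost : ∀ s N, P.g s ≤ N → cost P.en (s + 1) N < 2 ^ N) (t : ℕ) (O : Lang) :
    ∃ B : Finset (List Bool), B.card ≤ 2 ^ (2 * t + 2) ∧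
      ∀ w : List Bool, w.length = 4 * t + 7 → w ∉ B → GoodW P t O w := by
  classical
  obtain ⟨Q, hQ1, hQ2⟩ := exists_touch hg hcost t O
  -- the words in the questions
  have hw : ∀ q : List Bool, ∃ w : List Bool, ∀ w' φ, q = true :: cdw w' φ → w' = w := by
    intro q
    by_cases h : ∃ w φ, q = true :: cdw w φ
    · obtain ⟨w, φ, h1⟩ := h
      refine ⟨w, fun w' φ' h2 => ?_⟩
      rw [h1] at h2
      exact (cdw_inj (List.cons.inj h2).2).1.symm
    · push Not at h
      exact ⟨[], fun w' φ' h2 => absurd h2 (h w' φ')⟩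
  choose f hf using hw
  refine ⟨Q.image f, Finset.card_image_le.trans hQ1, fun w hlen hw => ⟨hlen, fun O' hO' => ?_⟩⟩
  intro j hj s hs c hc
  refine hQ2 O' (fun q hq => hO' q fun φ hqφ => hw ?_) j hj s hs c hc
  rw [hf q w φ hqφ]
  exact Finset.mem_image_of_mem _ hq

/-- good words -/
theorem exists_word {P : Par} (hg : StrictMono P.g)
    (hcost : ∀ s N, P.g s ≤ N → cost P.en (s + 1) N < 2 ^ N) (t : ℕ) (O : Lang) :
    ∃ w, GoodW P t O w := by
  classical
  obtain ⟨B, hB1, hB2⟩ := bad_words hg hcost t O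
  by_contra hcon
  push Not at hcon
  have h1 : ∀ v : List.Vector Bool (4 * t + 7), v.1 ∈ B := by
    intro v
    by_contra h
    exact hcon v.1 (hB2 v.1 v.2 h)
  have h3 := Fintype.card_le_of_injective
    (fun v : List.Vector Bool (4 * t + 7) => (⟨v.1, h1 v⟩ : {q // q ∈ B}))
    (fun v v' hv => by
      have h5 : v.1 = v'.1 := congrArg (fun z : {q // q ∈ B} => z.1) hv
      exact Subtype.ext h5)
  rw [card_vector, Fintype.card_bool, Fintype.card_coe] at h3
  have h4 : 2 ^ (2 * t + 2) < 2 ^ (4 * t + 7) := Nat.pow_lt_pow_right (by norm_num) (by omega)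
  omega

end Pool.Agent.LEN
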