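import Pool.Agent.Lib_helper10.LEN.Glob

/-!
# The limit
-/

set_option autoImplicit false

namespace Pool.Agent.LEN

open Pool.Agent.CK Pool.Agent.RF Pool.Agent.FS Filter
open Pool.Agent.LIN (cdw cdw_inj cdw_len padW padW_inj padW_true padW_closed act mem_act cost
  exists_touch exists_free ins ins_iff)

namespace Glb

variable {P : Prm} (X : Glb P)

open Classical in
/-- the set -/
noncomputable def HF : Lang := fun x => decide (∃ t, X.D.AS t x = true)

/-- the oracle -/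
noncomputable def OF : Lang := join P.R X.HF

theorem HF_iff (x : List Bool) : X.HF x = true ↔ ∃ t, X.D.AS t x = true := by
  simp only [HF, decide_eq_true_eq]

theorem mono {n t : ℕ} (hnt : n ≤ t) {x : List Bool} (hx : X.D.AS n x = true) :
    X.D.AS t x = true :=
  Sq.AS_mono (X.ok t) (Nat.zero_le _) hnt le_rfl hx

theorem HF_short {t : ℕ} {x : List Bool} (hx : x.length < 4 * t + 3) : X.HF x = X.D.AS t x := by
  rw [Bool.eq_iff_iff, X.HF_iff]
  constructor
  · rintro ⟨n, hn⟩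
    rcases le_total n t with h1 | h1
    · exact X.mono h1 hn
    · rwa [Sq.AS_short (X.ok n) (Nat.zero_le _) h1 le_rfl hx] at hn
  · exact fun h => ⟨t, h⟩

theorem agree (t : ℕ) : Agree (4 * t + 4) X.OF (X.D.OA P.toPar t) :=
  agree_join fun _ hx => X.HF_short (by omega)

/-- the small range of time `t` is final -/
theorem final (t : ℕ) : SameR P.toPar t (X.D.OA P.toPar t) X.OF := by
  intro j hj s hs c hc
  have h1 := Sq.run_stages (X.ok (t + s.length + c)) (Nat.zero_le _)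
    (by omega : t ≤ t + s.length + c) le_rfl j hj s hs c hc
  rw [← h1]
  refine DEP_run_congr (N := 4 * (t + s.length + c) + 4) (by omega) ?_ (X.agree _)
  rw [List.length_nil]
  omega

theorem true_iff {n j k : ℕ} (hj : P.g j ≤ n) (hk : k ≤ n) {σ : Fm}
    (hσ : σ = RF.Con (P.en j) k ∨ σ = RFN (P.en j) k) :
    σ.True (X.D.OA P.toPar n) ↔ σ.True X.OF :=
  true_congr (P := P.toPar) hj hk (X.final n)
    (DEP_agree_mono (by omega) (DEP_agree_symm (X.agree n))) hσ

theorem sent_true (hna : ∀ n, n ≤ P.a n) (hnb : ∀ n, n ≤ P.b n) {t : ℕ} {σ : Fm}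
    (hσ : Sent P.toPar t σ) : σ.True (X.D.OA P.toPar t) ↔ σ.True X.OF := by
  obtain ⟨j, k, n, hj, hk, ⟨hn, rfl⟩ | ⟨hn, rfl⟩⟩ := hσ
  · have := hna n
    exact X.true_iff (n := t) (j := j) (k := k) (by omega) (by omega) (Or.inl rfl)
  · have := hnb n
    exact X.true_iff (n := t) (j := j) (k := k) (by omega) (by omega) (Or.inr rfl)

/-- short proofs are final -/
theorem sht_iff {t j L : ℕ} (hj : P.g j ≤ t) (hL : L ≤ t) {Φ : Fm} :
    Sht (X.D.OA P.toPar t) (P.en j) Φ L ↔ Sht X.OF (P.en j) Φ L := by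
  have key : ∀ σ : Fm, σ.enc.length ≤ L →
      (Ax X.OF (P.en j) σ ↔ Ax (X.D.OA P.toPar t) (P.en j) σ) := by
    intro σ hσ
    have h1 : (σ.enc.length + 2) ^ (P.en j).2 ≤ clkS (P.en j).2 t :=
      (clkS_ge _ _).trans (QRY_clkS_mono _ (hσ.trans hL))
    have h2 := X.final t j hj σ.enc (by omega) _ h1
    unfold Ax Accepts
    exact iff_of_eq (congrArg (fun c : Config => c.1 = [] ∧ (c.2 0).head? = some true) h2)
  constructor
  · rintro ⟨l, hl, hlen⟩
    exact ⟨l, isProof_mono (fun σ hσ hA => (key σ ((QRY_mem_len hσ).trans hlen)).2 hA) hl, hlen⟩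
  · rintro ⟨l, hl, hlen⟩
    exact ⟨l, isProof_mono (fun σ hσ hA => (key σ ((QRY_mem_len hσ).trans hlen)).1 hA) hl, hlen⟩

/-- every element comes from a code or from a level -/
theorem elem {x : List Bool} (hx : X.HF x = true) :
    (∃ t σ, Sent P.toPar t σ ∧ σ.True (X.D.OA P.toPar t) ∧ x = cdw (X.D.w t) σ) ∨
      ∃ s, X.D.AS (P.tm s) x = true ∧ ¬ X.D.HS (P.tm s) x = true := by
  obtain ⟨n, hn⟩ := (X.HF_iff x).1 hx
  induction n with
  | zero =>
    by_cases h0 : X.D.HS 0 x = true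
    · rw [X.zero] at h0
      exact absurd h0 (by simp)
    · exact Or.inr ⟨0, hn, h0⟩
  | succ n ih =>
    by_cases h1 : X.D.HS (n + 1) x = true
    · rw [(X.ok (n + 1)).step n (Nat.zero_le _) (Nat.lt_succ_self n), stp_iff] at h1
      rcases h1 with h1 | ⟨σ, h2, h3, h4⟩
      · exact ih h1
      · exact Or.inl ⟨n, σ, h2, h3, h4⟩
    · by_cases h2 : ∃ s, n + 1 = P.tm s
      · obtain ⟨s, hs⟩ := h2
        exact Or.inr ⟨s, by rw [← hs]; exact hn, by rw [← hs]; exact h1⟩
      · push Not at h2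
        rw [X.other (n + 1) h2] at hn
        exact absurd hn h1

theorem code_ok (hna : ∀ n, n ≤ P.a n) (hnb : ∀ n, n ≤ P.b n) (σ : Fm)
    (hσ : X.OF (true :: false :: σ.enc) = true) : σ.Closed ∧ σ.True X.OF := by
  have h1 : X.HF (false :: σ.enc) = true := hσ
  rcases X.elem h1 with ⟨t, τ, h2, h3, h4⟩ | ⟨s, h2, h3⟩
  · have h5 : σ = padW (X.D.w t) τ := by
      refine (enc_inj (a := []) (b := []) ?_).1
      rw [List.append_nil, List.append_nil]
      exact (List.cons.inj h4).2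
    rw [h5]
    exact ⟨padW_closed (sent_closed h2), (padW_true _ _ _).2 ((X.sent_true hna hnb h2).1 h3)⟩
  · obtain ⟨w, h4, -⟩ := X.out s
    exact absurd rfl (out_code h4 h2 h3 σ)

theorem code_full (hna : ∀ n, n ≤ P.a n) (hnb : ∀ n, n ≤ P.b n) {t : ℕ} {σ : Fm}
    (hσ : Sent P.toPar t σ) (ht : σ.True X.OF) :
    X.OF (true :: false :: (padW (X.D.w t) σ).enc) = true := by
  show X.HF (cdw (X.D.w t) σ) = true
  rw [X.HF_iff]
  refine ⟨t + 1, ?_⟩
  have h1 := X.ok (t + 1)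
  refine h1.sub (t + 1) (Nat.succ_pos t) le_rfl _ ?_
  rw [h1.step t (Nat.zero_le _) (Nat.lt_succ_self t), stp_iff]
  exact Or.inr ⟨σ, hσ, (X.sent_true hna hnb hσ).2 ht, rfl⟩

/-- the goal of a level, in the limit -/
theorem goal_iff (h : P.Good) {s : ℕ} {w : ℕ → List Bool} (hK : P.K s)
    (hw : X.D.AS (P.L s) = grow P.toPar w (P.tm s) (X.D.AS (P.tm s)) (P.L s)) :
    P.G s (join P.R (grow P.toPar w (P.tm s) (X.D.AS (P.tm s)) (P.L s))) ↔ P.G s X.OF := by
  rw [← hw]
  exact X.sht_iff (hK.act.trans (le_L h s)) le_rfl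

end Glb

end Pool.Agent.LEN
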