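import Pool.Agent.Lib_helper10.LEN.Point

/-!
# The game
-/

set_option autoImplicit false

namespace Pool.Agent.LEN

open Pool.Agent.CK Pool.Agent.RF
open Pool.Agent.LIN (cdw cdw_inj cdw_len padW padW_inj padW_true padW_closed act mem_act cost
  exists_touch exists_free ins ins_iff)

/-- the facts about the words, the flags and the witnesses -/
structure GP (P : Par) (m L M : ℕ) (G : Lang → Prop) (H : Lang) (f : List Bool → List Bool)
    (f' : List Bool → List Bool → List Bool) (w u v : ℕ → List Bool) : Prop where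
  len : ∀ a < M, (u a).length = 4 * m - 1 ∧ (v a).length = 4 * m - 1
  ne : ∀ a a', a' < a → a < M → u a' ≠ u a
  good : ∀ a ≤ M, GoodG P w m L (base H f f' u v a)
  goodp : ∀ a ≤ M, GoodG P w m L (basep H f f' u v a)
  cert : ∀ a < M, ∃ Q, Cert P w m L G (base H f f' u v a) Q ∧ true :: f (u a) ∉ Q ∧
      true :: f' (u a) (v a) ∉ Q
  certp : ∀ a < M, ∃ Q, Cert P w m L G (basep H f f' u v a) Q ∧ true :: f' (u a) (v a) ∉ Q
  /-- the added strings are long -/
  long : ∀ x y : List Bool, x.length = 4 * m - 1 → y.length = 4 * m - 1 →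
    4 * m ≤ (f x).length + 1 ∧ 4 * m ≤ (f' x y).length + 1
  /-- the sentences of reflection are old -/
  old : ∀ n, P.b n < L → n < m

/-- the truth values at the times from `m` to `L` are the same -/
def SP (P : Par) (w : ℕ → List Bool) (m L : ℕ) (A A' : Lang) : Prop :=
  ∀ t, m ≤ t → t < L → SamePat P w m A A' t

/-- the first difference is a loss -/
def Dec (P : Par) (w : ℕ → List Bool) (m L : ℕ) (A A' : Lang) : Prop :=
  ∃ t, m ≤ t ∧ t < L ∧ (∀ s, m ≤ s → s < t → SamePat P w m A A' s) ∧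
    (∀ σ, Sent P t σ → σ.True (join P.R (grow P w m A' t)) →
      σ.True (join P.R (grow P w m A t))) ∧
    ∃ σ, Sent P t σ ∧ σ.True (join P.R (grow P w m A t)) ∧
      ¬ σ.True (join P.R (grow P w m A' t))

theorem Dec.not_sp {P : Par} {w : ℕ → List Bool} {m L : ℕ} {A A' : Lang}
    (h : Dec P w m L A A') : ¬ SP P w m L A A' := by
  obtain ⟨t, h1, h2, -, -, σ, h3, h4, h5⟩ := h
  exact fun h6 => h5 ((h6 t h1 h2 σ h3).1 h4)

theorem Dec.trans {P : Par} {w : ℕ → List Bool} {m L : ℕ} {A B C : Lang}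
    (h : Dec P w m L A B) (h' : Dec P w m L B C) : Dec P w m L A C := by
  obtain ⟨t, h1, h2, h3, h4, σ, h5, h6, h7⟩ := h
  obtain ⟨t', h1', h2', h3', h4', σ', h5', h6', h7'⟩ := h'
  rcases lt_trichotomy t t' with ht | ht | ht
  · refine ⟨t, h1, h2, fun s hs hst τ hτ => (h3 s hs hst τ hτ).trans (h3' s hs (by omega) τ hτ),
      fun τ hτ h8 => h4 τ hτ ((h3' t h1 ht τ hτ).2 h8), σ, h5, h6, fun h8 => h7 ?_⟩
    exact (h3' t h1 ht σ h5).2 h8
  · subst ht
    exact ⟨t, h1, h2, fun s hs hst τ hτ => (h3 s hs hst τ hτ).trans (h3' s hs hst τ hτ),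
      fun τ hτ h8 => h4 τ hτ (h4' τ hτ h8), σ', h5', h4 σ' h5' h6', h7'⟩
  · exact ⟨t', h1', h2', fun s hs hst τ hτ =>
      (h3 s hs (by omega) τ hτ).trans (h3' s hs hst τ hτ),
      fun τ hτ h8 => (h3 t' h1' ht τ hτ).2 (h4' τ hτ h8), σ', h5',
      (h3 t' h1' ht σ' h5').2 h6', h7'⟩

/-- the set with the one element `x` -/
def sg (x : List Bool) : Lang := fun z => decide (z = x)

/-- the set with the elements `x` and `y` -/
def pr (x y : List Bool) : Lang := fun z => decide (z = x) || decide (z = y)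

theorem sg_iff (x z : List Bool) : sg x z = true ↔ z = x := by
  unfold sg
  rw [decide_eq_true_eq]

theorem pr_iff (x y z : List Bool) : pr x y z = true ↔ z = x ∨ z = y := by
  unfold pr
  rw [Bool.or_eq_true, decide_eq_true_eq, decide_eq_true_eq]

theorem ins_sg (x : List Bool) (A : Lang) (z : List Bool) :
    ins x A z = true ↔ A z = true ∨ sg x z = true := by
  rw [ins_iff, sg_iff]

theorem ins_pr (x y : List Bool) (A : Lang) (z : List Bool) :
    ins y (ins x A) z = true ↔ A z = true ∨ pr x y z = true := by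
  rw [ins_iff, ins_iff, pr_iff, or_assoc]

section

variable {P : Par} {m L M : ℕ} {G : Lang → Prop} {H : Lang} {f : List Bool → List Bool}
  {f' : List Bool → List Bool → List Bool} {w u v : ℕ → List Bool}

/-- false sentences of consistency stay false -/
theorem con_persist {A A' E : Lang} {Q : Finset (List Bool)} (hQ : Cert P w m L G A Q)
    (hE : ∀ x, A' x = true ↔ A x = true ∨ E x = true) (hEQ : ∀ x, E x = true → true :: x ∉ Q)
    {t : ℕ} (h1 : m ≤ t) (h2 : t < L) (hsp : ∀ s, m ≤ s → s < t → SamePat P w m A A' s)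
    {j k n : ℕ} (hj : P.g j ≤ n) (hk : k ≤ n) (hn : P.a n = t)
    (hf : ¬ (RF.Con (P.en j) k).True (join P.R (grow P w m A t))) :
    ¬ (RF.Con (P.en j) k).True (join P.R (grow P w m A' t)) := by
  refine hQ.con t h1 h2 j k n hj hk hn hf _ fun q hq => ?_
  exact join_add (fun x => grow_add hE hsp le_rfl x) fun x hx hEx => hEQ x hEx (hx ▸ hq)

/-- the goal persists -/
theorem goal_persist {A A' E : Lang} {Q : Finset (List Bool)} (hQ : Cert P w m L G A Q)
    (hE : ∀ x, A' x = true ↔ A x = true ∨ E x = true) (hEQ : ∀ x, E x = true → true :: x ∉ Q)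
    (hsp : SP P w m L A A') (hG : G (join P.R (grow P w m A L))) :
    G (join P.R (grow P w m A' L)) := by
  refine hQ.goal hG _ fun q hq => ?_
  exact join_add (fun x => grow_add hE hsp le_rfl x) fun x hx hEx => hEQ x hEx (hx ▸ hq)

variable (h : GP P m L M G H f f' w u v)

include h

theorem samer_base {a : ℕ} (ha : a ≤ M) :
    SameR P m (join P.R H) (join P.R (base H f f' u v a)) := by
  induction a with
  | zero => exact fun _ _ _ _ _ _ => rfl
  | succ a ih =>
    obtain ⟨Q, hQ, hq1, hq2⟩ := h.cert a (by omega)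
    refine (ih (by omega)).trans (hQ.small _ fun q hq => ?_)
    refine join_add (E := pr (f (u a)) (f' (u a) (v a))) (fun x => ins_pr _ _ _ _)
      fun x hx hEx => ?_
    subst hx
    rcases (pr_iff _ _ _).1 hEx with h1 | h1
    · exact hq1 (h1 ▸ hq)
    · exact hq2 (h1 ▸ hq)

theorem samer_basep {a : ℕ} (ha : a < M) :
    SameR P m (join P.R H) (join P.R (basep H f f' u v a)) := by
  obtain ⟨Q, hQ, hq1, hq2⟩ := h.cert a ha
  refine (samer_base h ha.le).trans (hQ.small _ fun q hq => ?_)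
  refine join_add (E := sg (f (u a))) (fun x => ins_sg _ _ _) fun x hx hEx => ?_
  subst hx
  rw [(sg_iff _ _).1 hEx] at hq
  exact hq1 hq

theorem base_short {a : ℕ} (ha : a ≤ M) {x : List Bool} (hx : x.length + 1 < 4 * m) :
    base H f f' u v a x = H x := by
  induction a with
  | zero => rfl
  | succ a ih =>
    rw [← ih (by omega), Bool.eq_iff_iff]
    refine (ins_pr _ _ _ _).trans ⟨fun h1 => h1.resolve_right fun h2 => ?_, Or.inl⟩
    obtain ⟨h3, h4⟩ := h.long (u a) (v a) (h.len a (by omega)).1 (h.len a (by omega)).2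
    rcases (pr_iff _ _ _).1 h2 with h5 | h5
    · rw [h5] at hx; omega
    · rw [h5] at hx; omega

theorem basep_short {a : ℕ} (ha : a < M) {x : List Bool} (hx : x.length + 1 < 4 * m) :
    basep H f f' u v a x = H x := by
  rw [← base_short h ha.le hx, Bool.eq_iff_iff]
  refine (ins_sg _ _ _).trans ⟨fun h1 => h1.resolve_right fun h2 => ?_, Or.inl⟩
  obtain ⟨h3, h4⟩ := h.long (u a) (v a) (h.len a ha).1 (h.len a ha).2
  rw [(sg_iff _ _).1 h2] at hx
  omega

/-- The worlds -/
def Wd (P : Par) (w : ℕ → List Bool) (m L : ℕ) (H A : Lang) : Prop :=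
  GoodG P w m L A ∧ SameR P m (join P.R H) (join P.R A) ∧
    ∀ x : List Bool, x.length + 1 < 4 * m → A x = H x

theorem wd_base {a : ℕ} (ha : a ≤ M) : Wd P w m L H (base H f f' u v a) :=
  ⟨h.good a ha, samer_base h ha, fun _ hx => base_short h ha hx⟩

theorem wd_basep {a : ℕ} (ha : a < M) : Wd P w m L H (basep H f f' u v a) :=
  ⟨h.goodp a ha.le, samer_basep h ha, fun _ hx => basep_short h ha hx⟩

omit h in
/-- the old sentences -/
theorem old_iff {A : Lang} (hA : Wd P w m L H A) {n j k : ℕ} (hn : n < m) (hj : P.g j ≤ n)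
    (hk : k ≤ n) {σ : Fm} (hσ : σ = RF.Con (P.en j) k ∨ σ = RFN (P.en j) k) {t : ℕ}
    (h1 : m ≤ t) (h2 : t ≤ L) :
    σ.True (join P.R (grow P w m A t)) ↔ σ.True (join P.R H) := by
  have e1 : (gsq P w m A).OA P m = join P.R A := by
    show join P.R (grow P w m A m) = _
    rw [grow_le le_rfl]
  have hok := gsq_ok hA.1
  have e2 := Sq.run_stages hok le_rfl h1 h2
  have e3 := Sq.agree_stage hok le_rfl h1 h2
  rw [e1] at e2 e3
  refine (true_congr hj hk (O := join P.R H) (O' := join P.R (grow P w m A t)) ?_ ?_ hσ).symm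
  · exact (hA.2.1.trans e2).mono hn.le
  · refine fun x hx => (Eq.trans ?_ (e3 x (by omega)).symm)
    refine agree_join (N := 4 * n + 2) (fun y hy => (hA.2.2 y (by omega)).symm) x hx

/-- it suffices to compare the sentences of consistency -/
theorem samePat_of {A A' : Lang} (hA : Wd P w m L H A) (hA' : Wd P w m L H A') {t : ℕ}
    (h1 : m ≤ t) (h2 : t < L)
    (hc : ∀ j k n, P.g j ≤ n → k ≤ n → P.a n = t →
      ((RF.Con (P.en j) k).True (join P.R (grow P w m A t)) ↔
        (RF.Con (P.en j) k).True (join P.R (grow P w m A' t)))) : SamePat P w m A A' t := by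
  rintro σ ⟨j, k, n, hj, hk, ⟨hn, rfl⟩ | ⟨hn, rfl⟩⟩
  · exact hc j k n hj hk hn
  · have hnm : n < m := h.old n (by omega)
    rw [old_iff hA hnm hj hk (Or.inr rfl) h1 h2.le, old_iff hA' hnm hj hk (Or.inr rfl) h1 h2.le]

/-- the first difference -/
theorem dec_of {A A' E : Lang} (hA : Wd P w m L H A) (hA' : Wd P w m L H A')
    {Q : Finset (List Bool)} (hQ : Cert P w m L G A Q)
    (hE : ∀ x, A' x = true ↔ A x = true ∨ E x = true) (hEQ : ∀ x, E x = true → true :: x ∉ Q)
    (hsp : ¬ SP P w m L A A') : Dec P w m L A A' := by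
  classical
  unfold SP at hsp
  push Not at hsp
  have hex : ∃ t, m ≤ t ∧ t < L ∧ ¬ SamePat P w m A A' t := hsp
  obtain ⟨h1, h2, h3⟩ := Nat.find_spec hex
  set t := Nat.find hex with ht
  have h4 : ∀ s, m ≤ s → s < t → SamePat P w m A A' s := by
    intro s hs hst
    by_contra hcon
    exact Nat.find_min hex hst ⟨hs, by omega, hcon⟩
  have h5 : ∀ j k n, P.g j ≤ n → k ≤ n → P.a n = t →
      ¬ (RF.Con (P.en j) k).True (join P.R (grow P w m A t)) →
        ¬ (RF.Con (P.en j) k).True (join P.R (grow P w m A' t)) := fun j k n hj hk hn =>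
    con_persist hQ hE hEQ h1 h2 h4 hj hk hn
  have h6 : ∃ j k n, P.g j ≤ n ∧ k ≤ n ∧ P.a n = t ∧
      (RF.Con (P.en j) k).True (join P.R (grow P w m A t)) ∧
        ¬ (RF.Con (P.en j) k).True (join P.R (grow P w m A' t)) := by
    by_contra hcon
    push Not at hcon
    refine h3 (samePat_of h hA hA' h1 h2 fun j k n hj hk hn =>
      ⟨hcon j k n hj hk hn, fun h7 => ?_⟩)
    by_contra h8
    exact h5 j k n hj hk hn h8 h7
  refine ⟨t, h1, h2, h4, ?_, ?_⟩
  · rintro σ ⟨j, k, n, hj, hk, ⟨hn, rfl⟩ | ⟨hn, rfl⟩⟩ h7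
    · by_contra h8
      exact h5 j k n hj hk hn h8 h7
    · have hnm : n < m := h.old n (by omega)
      rw [old_iff hA hnm hj hk (Or.inr rfl) h1 h2.le]
      rwa [old_iff hA' hnm hj hk (Or.inr rfl) h1 h2.le] at h7
  · obtain ⟨j, k, n, hj, hk, hn, h7, h8⟩ := h6
    exact ⟨_, ⟨j, k, n, hj, hk, Or.inl ⟨hn, rfl⟩⟩, h7, h8⟩

/-- if the pair changes nothing then its flag changes nothing -/
theorem flag_of_pair {a : ℕ} (ha : a < M)
    (hsp : SP P w m L (base H f f' u v a) (base H f f' u v (a + 1))) :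
    SP P w m L (base H f f' u v a) (basep H f f' u v a) := by
  by_contra hcon
  obtain ⟨Q, hQ, hq1, -⟩ := h.cert a ha
  obtain ⟨Q', hQ', hq'⟩ := h.certp a ha
  obtain ⟨t, h1, h2, h3, -, σ, h5, h6, h7⟩ := dec_of h (wd_base h ha.le) (wd_basep h ha) hQ
    (E := sg (f (u a))) (fun x => ins_sg _ _ _)
    (fun x hx => by rw [(sg_iff _ _).1 hx]; exact hq1) hcon
  have h8 := (hsp t h1 h2 σ h5).1 h6
  have h9 : ∀ s, m ≤ s → s < t →
      SamePat P w m (basep H f f' u v a) (base H f f' u v (a + 1)) s := fun s hs hst τ hτ =>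
    (h3 s hs hst τ hτ).symm.trans (hsp s hs (by omega) τ hτ)
  obtain ⟨j, k, n, hj, hk, ⟨hn, rfl⟩ | ⟨hn, rfl⟩⟩ := h5
  · exact con_persist hQ' (E := sg (f' (u a) (v a))) (fun x => ins_sg _ _ _)
      (fun x hx => by rw [(sg_iff _ _).1 hx]; exact hq') h1 h2 h9 hj hk hn h7 h8
  · have hnm : n < m := h.old n (by omega)
    rw [old_iff (wd_basep h ha) hnm hj hk (Or.inr rfl) h1 h2.le] at h7
    rw [old_iff (wd_base h ha.le) hnm hj hk (Or.inr rfl) h1 h2.le] at h6
    exact h7 h6

/-- the outcome -/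
theorem outcome {a : ℕ} (ha : a < M)
    (hsp : SP P w m L (base H f f' u v a) (basep H f f' u v a))
    (hG : G (join P.R (grow P w m (base H f f' u v a) L))) :
    G (join P.R (grow P w m (basep H f f' u v a) L)) := by
  obtain ⟨Q, hQ, hq1, -⟩ := h.cert a ha
  exact goal_persist hQ (E := sg (f (u a))) (fun x => ins_sg _ _ _)
    (fun x hx => by rw [(sg_iff _ _).1 hx]; exact hq1) hsp hG

/-! ## The pigeonhole -/

theorem dec_chain (hno : ∀ a < M, ¬ SP P w m L (base H f f' u v a) (base H f f' u v (a + 1)))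
    {a a' : ℕ} (h1 : a < a') (h2 : a' ≤ M) :
    Dec P w m L (base H f f' u v a) (base H f f' u v a') := by
  have step : ∀ b < M, Dec P w m L (base H f f' u v b) (base H f f' u v (b + 1)) := by
    intro b hb
    obtain ⟨Q, hQ, hq1, hq2⟩ := h.cert b hb
    refine dec_of h (wd_base h hb.le) (wd_base h hb) hQ
      (E := pr (f (u b)) (f' (u b) (v b))) (fun x => ins_pr _ _ _ _) (fun x hx => ?_) (hno b hb)
    rcases (pr_iff _ _ _).1 hx with h3 | h3
    · rw [h3]; exact hq1
    · rw [h3]; exact hq2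
  induction a', (Nat.succ_le_of_lt h1) using Nat.le_induction with
  | base => exact step a (by omega)
  | succ a' ha' ih => exact (ih (by omega) (by omega)).trans (step a' (by omega))

end

end Pool.Agent.LEN
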