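import Pool.Agent.Lib_helper10.LEN.Level

/-!
# The oracle
-/

set_option autoImplicit false

namespace Pool.Agent.LEN

open Pool.Agent.CK Pool.Agent.RF Pool.Agent.FS Filter
open Pool.Agent.LIN (cdw cdw_inj cdw_len padW padW_inj padW_true padW_closed act mem_act cost
  exists_touch exists_free ins ins_iff)

variable {P : Prm}

theorem L_lt (h : P.Good) (s : ℕ) : P.L s < P.tm (s + 1) := by
  have h1 : P.lv s ≤ P.tm (s + 1) := by
    show P.lv s ≤ 2 ^ (P.lv s - 1)
    have h2 := h.l8 s
    have h3 : P.lv s - 1 < 2 ^ (P.lv s - 1) := Nat.lt_two_pow_self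
    omega
  cases s with
  | zero =>
    have h2 : P.L 0 ≤ P.b 0 := L_le h 0
    have h3 := h.l0
    omega
  | succ s =>
    have h2 := L_le h (s + 1)
    have h3 := h.lb s
    omega

theorem tm_mono (h : P.Good) : StrictMono P.tm :=
  strictMono_nat_of_lt_succ fun s => (le_L h s).trans_lt (L_lt h s)

/-- the sequence with its levels -/
structure Glb (P : Prm) where
  /-- the sequence -/
  D : Sq
  /-- the words for the flags -/
  u : ℕ → ℕ → List Bool
  /-- the words for the witnesses -/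
  v : ℕ → ℕ → List Bool
  /-- the numbers of pairs -/
  a : ℕ → ℕ
  ok : ∀ m', D.OkOn P.toPar 0 m'
  zero : D.HS 0 = fun _ => false
  other : ∀ t, (∀ s, t ≠ P.tm s) → D.AS t = D.HS t
  out : ∀ s, ∃ w, P.Out s (D.HS (P.tm s)) (D.AS (P.tm s)) w (u s) (v s) (a s) ∧
    D.AS (P.L s) = grow P.toPar w (P.tm s) (D.AS (P.tm s)) (P.L s)

/-- the new strings of a level -/
theorem out_new {s : ℕ} {H A : Lang} {w u v : ℕ → List Bool} {a : ℕ}
    (h : P.Out s H A w u v a) {x : List Bool} (hx : A x = true) (hx' : ¬ H x = true) :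
    P.K s ∧ ((∃ i < a, (x = P.f s (u i) ∨ x = P.f' s (u i) (v i))) ∨
      (x = P.f s (u a) ∧ (u a).length = 4 * P.tm s - 1 ∧ (∀ i < a, u i ≠ u a) ∧
        P.G s (join P.R (grow P.toPar w (P.tm s) A (P.L s))))) := by
  have hb : ∀ b ≤ a, P.bs s H u v b x = true → ∃ i < b, (x = P.f s (u i) ∨
      x = P.f' s (u i) (v i)) := by
    intro b hba
    induction b with
    | zero => exact fun h0 => absurd h0 hx'
    | succ b ih =>
      intro h1
      rcases (ins_iff _ _ _).1 h1 with h2 | h2
      · rcases (ins_iff _ _ _).1 h2 with h3 | h3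
        · obtain ⟨i, hi, h4⟩ := ih (by omega) h3
          exact ⟨i, by omega, h4⟩
        · exact ⟨b, by omega, Or.inl h3⟩
      · exact ⟨b, by omega, Or.inr h2⟩
  rcases h.out with ⟨h1, -⟩ | ⟨h1, h2, h3, h4, h5⟩
  · rw [h1] at hx
    obtain ⟨i, hi, h2⟩ := hb a le_rfl hx
    exact ⟨(h.typ (by omega)).1, Or.inl ⟨i, hi, h2⟩⟩
  · refine ⟨h1, ?_⟩
    rw [h4] at hx
    rcases (ins_iff _ _ _).1 hx with h6 | h6
    · exact Or.inl (hb a le_rfl h6)
    · exact Or.inr ⟨h6, h2, h3, h5⟩

theorem out_sub {s : ℕ} {H A : Lang} {w u v : ℕ → List Bool} {a : ℕ}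
    (h : P.Out s H A w u v a) {x : List Bool} (hx : H x = true) : A x = true := by
  have hb : ∀ b, P.bs s H u v b x = true := by
    intro b
    induction b with
    | zero => exact hx
    | succ b ih => exact (ins_iff _ _ _).2 (Or.inl ((ins_iff _ _ _).2 (Or.inl ih)))
  rcases h.out with ⟨h1, -⟩ | ⟨-, -, -, h4, -⟩
  · rw [h1]; exact hb a
  · rw [h4]; exact (ins_iff _ _ _).2 (Or.inl (hb a))

/-- the pairs of a level -/
theorem out_pair {s : ℕ} {H A : Lang} {w u v : ℕ → List Bool} {a : ℕ}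
    (h : P.Out s H A w u v a) {i : ℕ} (hi : i < a) : A (P.f' s (u i) (v i)) = true := by
  have hb : ∀ b, i < b → P.bs s H u v b (P.f' s (u i) (v i)) = true := by
    intro b hb
    induction b, (Nat.succ_le_of_lt hb) using Nat.le_induction with
    | base => exact (ins_iff _ _ _).2 (Or.inr rfl)
    | succ b _ ih =>
      exact (ins_iff _ _ _).2 (Or.inl ((ins_iff _ _ _).2 (Or.inl (ih (by omega)))))
  rcases h.out with ⟨h1, -⟩ | ⟨-, -, -, h4, -⟩
  · rw [h1]; exact hb a hi
  · rw [h4]; exact (ins_iff _ _ _).2 (Or.inl (hb a hi))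

theorem out_long {s : ℕ} {H A : Lang} {w u v : ℕ → List Bool} {a : ℕ}
    (h : P.Out s H A w u v a) {x : List Bool} (hx : A x = true) (hx' : ¬ H x = true) :
    4 * P.tm s ≤ x.length + 1 := by
  obtain ⟨-, ⟨i, hi, h1 | h1⟩ | ⟨h1, h2, -⟩⟩ := out_new h hx hx'
  · rw [h1]; exact f_long s (h.len i hi).1
  · rw [h1]; exact f'_long s (h.len i hi).2
  · rw [h1]; exact f_long s h2

theorem out_code {s : ℕ} {H A : Lang} {w u v : ℕ → List Bool} {a : ℕ}
    (h : P.Out s H A w u v a) {x : List Bool} (hx : A x = true) (hx' : ¬ H x = true) (σ : Fm) :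
    x ≠ false :: σ.enc := by
  obtain ⟨hK, ⟨i, -, h1 | h1⟩ | ⟨h1, -⟩⟩ := out_new h hx hx'
  · rw [h1]; exact f_code hK _ _
  · rw [h1]; exact f'_code hK _ _ _
  · rw [h1]; exact f_code hK _ _

/-- **The sequence exists.** -/
theorem exists_glb (h : P.Good) : Nonempty (Glb P) := by
  classical
  choose AA WW UU VV NA hOut using exists_out h
  let Hs : ℕ → Lang := fun s => Nat.rec (fun _ => false) (fun s H =>
    grow P.toPar (WW s H) (P.tm s) (AA s H) (P.tm (s + 1))) s
  have hHs : ∀ s, Hs (s + 1) =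
      grow P.toPar (WW s (Hs s)) (P.tm s) (AA s (Hs s)) (P.tm (s + 1)) := fun s => rfl
  have hmono := tm_mono h
  have hex : ∀ t, ∃ s, t < P.tm (s + 1) := fun t => ⟨t, (hmono.le_apply (x := t)).trans_lt
    (hmono (Nat.lt_succ_self t))⟩
  let lev : ℕ → ℕ := fun t => Nat.find (hex t)
  have lev1 : ∀ t, t < P.tm (lev t + 1) := fun t => Nat.find_spec (hex t)
  have lev2 : ∀ t, P.tm (lev t) ≤ t := by
    intro t
    rcases hl : lev t with _ | s
    · exact Nat.zero_le _
    · have h1 : s < lev t := by omega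
      have h2 := Nat.find_min (hex t) h1
      exact Nat.not_lt.1 h2
  have lev3 : ∀ s t, P.tm s ≤ t → t < P.tm (s + 1) → lev t = s := by
    intro s t h1 h2
    have h3 := lev1 t
    have h4 := lev2 t
    have h5 : P.tm s < P.tm (lev t + 1) := by omega
    have h6 : P.tm (lev t) < P.tm (s + 1) := by omega
    have h7 := hmono.lt_iff_lt.1 h5
    have h8 := hmono.lt_iff_lt.1 h6
    omega
  let gr : ℕ → ℕ → Lang := fun s t => grow P.toPar (WW s (Hs s)) (P.tm s) (AA s (Hs s)) t
  let D : Sq := ⟨fun t => if t = P.tm (lev t) then Hs (lev t) else gr (lev t) t,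
    fun t => gr (lev t) t, fun t => WW (lev t) (Hs (lev t)) t⟩
  have hA : ∀ s t, P.tm s ≤ t → t < P.tm (s + 1) → D.AS t = gr s t := by
    intro s t h1 h2
    show gr (lev t) t = gr s t
    rw [lev3 s t h1 h2]
  have hAm : ∀ s, D.AS (P.tm s) = AA s (Hs s) := by
    intro s
    rw [hA s _ le_rfl (hmono (Nat.lt_succ_self s))]
    exact grow_le le_rfl
  have hH : ∀ s, D.HS (P.tm s) = Hs s := by
    intro s
    have h1 := lev3 s _ le_rfl (hmono (Nat.lt_succ_self s))
    show (if P.tm s = P.tm (lev (P.tm s)) then Hs (lev (P.tm s)) else _) = Hs s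
    rw [if_pos (by rw [h1]), h1]
  have hH' : ∀ t, t ≠ P.tm (lev t) → D.HS t = D.AS t := fun t ht => if_neg ht
  refine ⟨⟨D, fun s => UU s (Hs s), fun s => VV s (Hs s), fun s => NA s (Hs s), ?_, ?_, ?_, ?_⟩⟩
  · intro m'
    refine ⟨?_, ?_, ?_, ?_, ?_⟩
    · -- steps
      intro t _ _
      have h1 := lev1 t
      have h2 := lev2 t
      have h3 : D.AS t = gr (lev t) t := rfl
      have h4 : stp P.toPar (D.w t) t (D.AS t) = gr (lev t) (t + 1) := by
        show stp P.toPar (WW (lev t) (Hs (lev t)) t) t (gr (lev t) t) = _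
        exact (grow_succ h2).symm
      rw [h4]
      by_cases h5 : t + 1 = P.tm (lev t + 1)
      · rw [h5, hH, hHs]
      · have h6 : lev (t + 1) = lev t := lev3 _ _ (by omega) (by omega)
        rw [hH' (t + 1) (by rw [h6]; omega)]
        show gr (lev (t + 1)) (t + 1) = _
        rw [h6]
    · -- words
      intro t _ _
      exact (hOut (lev t) (Hs (lev t))).good (t + 1) t (lev2 t) (Nat.lt_succ_self t)
    · -- sub
      intro t _ _ x hx
      by_cases h1 : t = P.tm (lev t)
      · rw [h1] at hx ⊢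
        rw [hH] at hx
        rw [hAm]
        exact out_sub (hOut _ _) hx
      · rwa [hH' t h1] at hx
    · -- new
      intro t _ _ x hx hx'
      by_cases h1 : t = P.tm (lev t)
      · rw [h1] at hx hx' ⊢
        rw [hH] at hx'
        rw [hAm] at hx
        exact out_long (hOut _ _) hx hx'
      · rw [hH' t h1] at hx'
        exact absurd hx hx'
    · -- keep
      intro t _ _
      by_cases h1 : t = P.tm (lev t)
      · have h2 := (hOut (lev t) (Hs (lev t))).same
        show SameR P.toPar t (join P.R (D.HS t)) (join P.R (D.AS t))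
        have e1 : D.HS t = Hs (lev t) := by
          conv_lhs => rw [h1]
          exact hH _
        have e2 : D.AS t = AA (lev t) (Hs (lev t)) := by
          conv_lhs => rw [h1]
          exact hAm _
        rw [e1, e2]
        rwa [← h1] at h2
      · show SameR P.toPar t (join P.R (D.HS t)) (join P.R (D.AS t))
        rw [hH' t h1]
        exact fun _ _ _ _ _ _ => rfl
  · exact hH 0
  · intro t ht
    exact (hH' t (ht _)).symm
  · intro s
    refine ⟨WW s (Hs s), ?_, ?_⟩
    · rw [hH, hAm]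
      exact hOut s (Hs s)
    · rw [hA s _ (le_L h s) (L_lt h s), hAm]

end Pool.Agent.LEN
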