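import Pool.Agent.Lib_helper10.LEN.Seq
import Pool.Agent.Lib_helper10.LIN.Plant

/-!
# Growing from a time
-/

set_option autoImplicit false

namespace Pool.Agent.LEN

open Pool.Agent.CK Pool.Agent.RF
open Pool.Agent.LIN (cdw cdw_inj cdw_len padW padW_inj padW_true padW_closed act mem_act cost
  exists_touch exists_free ins ins_iff)

open Classical in
/-- the codes of the times from `m` on are added to `A` -/
noncomputable def grow (P : Par) (w : ℕ → List Bool) (m : ℕ) (A : Lang) : ℕ → Lang
  | 0 => A
  | t + 1 => if m ≤ t then stp P (w t) t (grow P w m A t) else A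

section

variable {P : Par} {w w' : ℕ → List Bool} {m : ℕ} {A A' : Lang}

theorem grow_le {t : ℕ} (ht : t ≤ m) : grow P w m A t = A := by
  cases t with
  | zero => rfl
  | succ t =>
    unfold grow
    rw [if_neg (by omega)]

theorem grow_succ {t : ℕ} (ht : m ≤ t) :
    grow P w m A (t + 1) = stp P (w t) t (grow P w m A t) := by
  conv_lhs => unfold grow
  rw [if_pos ht]

theorem grow_congr {t : ℕ} (h : ∀ s, m ≤ s → s < t → w s = w' s) :
    grow P w m A t = grow P w' m A t := by
  induction t with
  | zero => rfl
  | succ t ih =>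
    by_cases ht : m ≤ t
    · rw [grow_succ ht, grow_succ ht, ih fun s hs hst => h s hs (by omega),
        h t ht (Nat.lt_succ_self t)]
    · rw [grow_le (by omega), grow_le (by omega)]

/-- the sequence -/
noncomputable def gsq (P : Par) (w : ℕ → List Bool) (m : ℕ) (A : Lang) : Sq :=
  ⟨grow P w m A, grow P w m A, w⟩

/-- all words are good between the times `m` and `L` -/
def GoodG (P : Par) (w : ℕ → List Bool) (m L : ℕ) (A : Lang) : Prop :=
  ∀ t, m ≤ t → t < L → GoodW P t (join P.R (grow P w m A t)) (w t)

theorem gsq_ok {L : ℕ} (h : GoodG P w m L A) : (gsq P w m A).OkOn P m L where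
  step t h1 _ := grow_succ h1
  words t h1 h2 := h t h1 h2
  sub _ _ _ _ hx := hx
  new _ _ _ _ hx hx' := absurd hx hx'
  keep _ _ _ := fun _ _ _ _ _ _ => rfl

/-- the truth values at time `t` are the same -/
def SamePat (P : Par) (w : ℕ → List Bool) (m : ℕ) (A A' : Lang) (t : ℕ) : Prop :=
  ∀ σ, Sent P t σ → (σ.True (join P.R (grow P w m A t)) ↔ σ.True (join P.R (grow P w m A' t)))

/-- if the truth values are the same then the same codes are added -/
theorem grow_add {E : Lang} (hE : ∀ x, A' x = true ↔ A x = true ∨ E x = true) {T : ℕ}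
    (h : ∀ t, m ≤ t → t < T → SamePat P w m A A' t) {t : ℕ} (ht : t ≤ T) (x : List Bool) :
    grow P w m A' t x = true ↔ grow P w m A t x = true ∨ E x = true := by
  induction t generalizing x with
  | zero => exact hE x
  | succ t ih =>
    by_cases hm : m ≤ t
    · have h1 := h t hm (by omega)
      rw [grow_succ hm, grow_succ hm, stp_iff, stp_iff, ih (by omega)]
      constructor
      · rintro ((h2 | h2) | ⟨σ, h2, h3, h4⟩)
        · exact Or.inl (Or.inl h2)
        · exact Or.inr h2
        · exact Or.inl (Or.inr ⟨σ, h2, (h1 σ h2).2 h3, h4⟩)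
      · rintro ((h2 | ⟨σ, h2, h3, h4⟩) | h2)
        · exact Or.inl (Or.inl h2)
        · exact Or.inr ⟨σ, h2, (h1 σ h2).1 h3, h4⟩
        · exact Or.inl (Or.inr h2)
    · rw [grow_le (by omega), grow_le (by omega)]
      exact hE x

/-- a question that is not an added string -/
theorem join_add {R A A' E : Lang} (hE : ∀ x, A' x = true ↔ A x = true ∨ E x = true)
    {q : List Bool} (hq : ∀ x, q = true :: x → ¬ E x = true) : join R A' q = join R A q := by
  rcases q with _ | ⟨b, q⟩
  · rfl
  · cases b with
    | false => rfl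
    | true =>
      show A' q = A q
      rw [Bool.eq_iff_iff, hE]
      exact ⟨fun h => h.resolve_right (hq q rfl), Or.inl⟩

end

/-! ## Certificates -/

/-- The answers to the questions in `Q` show the falsity of the sentences of consistency of the
times from `m` to `L`, the goal `G` at time `L`, and the computations of the range of time `m`. -/
structure Cert (P : Par) (w : ℕ → List Bool) (m L : ℕ) (G : Lang → Prop) (A : Lang)
    (Q : Finset (List Bool)) : Prop where
  con : ∀ t, m ≤ t → t < L → ∀ j k n : ℕ, P.g j ≤ n → k ≤ n → P.a n = t →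
    ¬ (RF.Con (P.en j) k).True (join P.R (grow P w m A t)) →
      ∀ O' : Lang, (∀ q ∈ Q, O' q = join P.R (grow P w m A t) q) → ¬ (RF.Con (P.en j) k).True O'
  goal : G (join P.R (grow P w m A L)) →
    ∀ O' : Lang, (∀ q ∈ Q, O' q = join P.R (grow P w m A L) q) → G O'
  small : ∀ O' : Lang, (∀ q ∈ Q, O' q = join P.R A q) → SameR P m (join P.R A) O'

theorem Cert.congr {P : Par} {w w' : ℕ → List Bool} {m L : ℕ} {G : Lang → Prop} {A : Lang}
    {Q : Finset (List Bool)} (hw : ∀ s, m ≤ s → s < L → w s = w' s) (h : Cert P w m L G A Q) :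
    Cert P w' m L G A Q := by
  have h1 : ∀ t, t ≤ L → grow P w m A t = grow P w' m A t := fun t ht =>
    grow_congr fun s hs hst => hw s hs (by omega)
  refine ⟨fun t h2 h3 => ?_, ?_, h.small⟩
  · rw [← h1 t h3.le]
    exact h.con t h2 h3
  · rw [← h1 L le_rfl]
    exact h.goal

end Pool.Agent.LEN
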