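import Pool.Agent.Lib_helper78.TC.Dec
import Pool.Agent.Lib_helper78.RF.F.WIT

/-!
# The theory with axioms about flags and witnesses, with linear time bounds
-/

set_option autoImplicit false

namespace Pool.Agent.LEN

open Pool.Agent.CK Pool.Agent.RF Pool.Agent.CKP Pool.Agent.RO Pool.Agent.FS
open Pool.Agent.TC (ad ad_inj ad_len dbl dbl_inj dbl_append dbl_len prg e1 prg_acc acc_prg
  val_zeros)

/-- the time bound -/
def zl (n : ℕ) : ℕ := 2 ^ (16 * (n + 2)) - 1

theorem size_zl (n : ℕ) : Nat.size (zl n) = 16 * (n + 2) := WIT_size_pow _ (by omega)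

/-- The sentence: the flag of `z` is not in the oracle, or `z` has a witness in the oracle. -/
def witL (z : List Bool) : Fm := mu (num e1) (num (val z)) (num (zl z.length))

theorem mu_ofL {O : Lang} {z y : List Bool} (hy : y.length ≤ z.length)
    (h : (y = [] ∧ O (true :: ad z []) = false) ∨ (y ≠ [] ∧ O (true :: ad z y) = true)) :
    MuT O e1 (val z) (zl z.length) := by
  refine ⟨val y, ?_, prg, z, y, rfl, rfl, rfl, ?_⟩
  · have h3 := (size_val y).2
    have h4 : val y < 2 ^ (16 * (z.length + 2)) := by
      rw [← Nat.size_le]; omega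
    unfold zl
    omega
  · rw [size_zl]
    exact acc_prg (by omega) h

theorem of_muL {O : Lang} {z : List Bool} (h : MuT O e1 (val z) (zl z.length)) :
    O (true :: ad z []) = false ∨ ∃ y : List Bool, y ≠ [] ∧ y.length ≤ 16 * (z.length + 2) ∧
      O (true :: ad z y) = true := by
  obtain ⟨w, hw, c, a, b, h1, h2, h3, h4⟩ := h
  have hc : c = prg := cEnc_inj (val_inj h1)
  have ha : a = z := val_inj h2
  subst hc; subst ha
  rcases prg_acc h4 with h5 | h5
  · exact Or.inl h5.2
  · refine Or.inr ⟨b, h5.1, ?_, h5.2⟩
    have h6 := (size_val b).1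
    have h7 := Nat.size_le_size hw
    rw [size_zl] at h7
    rw [h3] at h6
    omega

theorem witL_true {O : Lang} {z : List Bool} (h : MuT O e1 (val z) (zl z.length)) :
    (witL z).True O := fun v => (holds_mu O v _ _ _).2 h

theorem witL_len : ∃ c : ℕ, ∀ u : List Bool, Nat.size (val (pEnc [witL u])) ≤ 792 * u.length + c ∧
    Nat.size e1 ≤ 792 * u.length + c ∧ Nat.size (val u) ≤ 792 * u.length + c ∧
    Nat.size (zl u.length) ≤ 792 * u.length + c := by
  refine ⟨24 * Nat.size e1 + 2000, fun u => ?_⟩
  have h1 : (witL u).enc.length = 2 * (num (zl u.length)).enc.length + (num e1).enc.length +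
      (num (val u)).enc.length + 62 := WIT_mu_len _ _ _
  have h2 := num_len (zl u.length)
  have h3 := num_len e1
  have h4 := num_len (val u)
  have h5 := (size_val u).2
  have h6 := size_zl u.length
  have h7 : (pEnc [witL u]).length = (witL u).enc.length := by simp [pEnc]
  have h8 := (size_val (pEnc [witL u])).2
  rw [h6] at h2
  generalize Nat.size e1 = E at *
  generalize (num e1).enc.length = E2 at *
  refine ⟨?_, ?_, ?_, ?_⟩ <;> omega

/-- a theory with a false axiom does not satisfy reflection -/
theorem not_rfnL {O : Lang} {T : Th} {N : ℕ} {z : List Bool} (h : Ax O T (witL z))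
    (hM : ¬ MuT O e1 (val z) (zl z.length)) (h1 : Nat.size (val (pEnc [witL z])) ≤ N)
    (h2 : Nat.size e1 ≤ N) (h3 : Nat.size (val z) ≤ N) (h4 : Nat.size (zl z.length) ≤ N) :
    ¬ RfnT O T N := by
  intro hR
  refine hM (hR e1 (val z) (zl z.length) [] h2 h3 h4 h1 ?_)
  intro i φ hi
  right; left
  rcases i with _ | i
  · have hφ : φ = witL z := by
      simp only [List.nil_append, List.getElem?_cons_zero, Option.some.injEq] at hi
      exact hi.symm
    subst hφ
    refine accepts_mono (le_trans ?_ (clkS_ge _ _)) h
    refine Nat.pow_le_pow_left ?_ _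
    have h5 := (size_val (pEnc ([] ++ [mu (num e1) (num (val z)) (num (zl z.length))]))).1
    have h6 : (pEnc ([] ++ [mu (num e1) (num (val z)) (num (zl z.length))])).length =
        (witL z).enc.length := by
      unfold witL
      simp [pEnc]
    omega
  · simp at hi

/-! ## The decision procedure -/

/-- the tokens of the sentence `witL z` -/
def wlT (z : List Bool) : List Tk :=
  muT (numT (cEnc prg)) (numT z) (numT (List.replicate (16 * (z.length + 2)) false))

theorem wlT_eq (z : List Bool) : wlT z = fmT (witL z) := by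
  unfold wlT witL
  rw [numT_eq, numT_eq, numT_eq, muT_eq, val_zeros]
  rfl

variable {O : Lang}

theorem PTime_wlT {γ : Type} [ToD γ] {z : γ → List Bool} (hz : PTime O z) :
    PTime O (fun x => wlT (z x)) := by
  unfold wlT
  refine PTime_muT (PTime.const _) (PTime_numT hz) (PTime_numT ?_)
  have h1 : PTime O (fun x => List.replicate (16 * ((z x).length + 2)) ()) :=
    UPoly.comp (g := fun n => 16 * (n + 2))
      (UPoly.mul (UPoly.const 16) (UPoly.add UPoly.id (UPoly.const 2))) hz
  have h2 : PTime O (fun x => (List.replicate (16 * ((z x).length + 2)) ()).map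
      (fun _ => false)) := PTime.map (f := fun _ _ => false) h1 (PTime.const _)
  exact h2.of_eq fun x => by rw [List.map_replicate]

/-- the instance in a sentence -/
def decl (x : List Bool) : List Bool :=
  (rdN (udrop (tk 14 0 :: tk 12 0 :: numT (cEnc prg))
    (rdN (udrop (List.replicate 7 ()) (parse x))).1)).2

theorem decl_wit (z : List Bool) : decl (witL z).enc = z := by
  unfold decl
  rw [parse_fm, ← wlT_eq]
  have h1 : udrop (List.replicate 7 ()) (wlT z) =
      numT (List.replicate (16 * (z.length + 2)) false) ++ (tk 14 0 :: tk 12 0 ::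
        (numT (cEnc prg) ++ (numT z ++ ([tk 0 4] ++
          numT (List.replicate (16 * (z.length + 2)) false))))) := by
    rw [udrop_eq]
    rfl
  rw [h1, rdN_num]
  simp only
  have h2 : udrop (tk 14 0 :: tk 12 0 :: numT (cEnc prg)) (tk 14 0 :: tk 12 0 ::
        (numT (cEnc prg) ++ (numT z ++ ([tk 0 4] ++
          numT (List.replicate (16 * (z.length + 2)) false))))) =
      numT z ++ ([tk 0 4] ++ numT (List.replicate (16 * (z.length + 2)) false)) := by
    rw [udrop_eq, List.length_cons, List.length_cons, List.drop_succ_cons, List.drop_succ_cons,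
      List.drop_left]
  rw [h2, rdN_num]

theorem PTime_decl {γ : Type} [ToD γ] {x : γ → List Bool} (hx : PTime O x) :
    PTime O (fun a => decl (x a)) :=
  (PTime_rdN (PTime.udrop (PTime.const _)
    (PTime_rdN (PTime.udrop (PTime.const _) (PTime_parse hx))).fst)).snd

/-- the head of the instances -/
def hd40 : List Bool := List.replicate 40 true

/-- the instance with the prefix `p` and the word `u` -/
def inz (p u : List Bool) : List Bool := hd40 ++ (p ++ u)

/-- the decision procedure of the theory -/
def decL (O : Lang) (b : Th) (q : List Bool) (x : (List Bool × List Unit) × List Bool) : Bool :=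
  accU O (cmdD b.1) x.2 [] (List.replicate ((x.2.length + 2) ^ b.2) ()) ||
    eqT x.2 (encT (wlT (hd40 ++ (pfx x.1.1 x.1.2 q ++
      udrop (hd40 ++ pfx x.1.1 x.1.2 q) (decl x.2)))))

theorem PTime_decL (b : Th) (q : List Bool) : PTime O (decL O b q) := by
  have f0 : PTime O (fun x : (List Bool × List Unit) × List Bool => x) := PTime.id
  have hN : PTime O (fun x : (List Bool × List Unit) × List Bool =>
      List.replicate ((x.2.length + 2) ^ b.2) ()) :=
    UPoly.comp (g := fun n => (n + 2) ^ b.2) (UPoly.tb b.2) f0.snd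
  have h1 : PTime O (fun x : (List Bool × List Unit) × List Bool =>
      accU O (cmdD b.1) x.2 [] (List.replicate ((x.2.length + 2) ^ b.2) ())) :=
    PTime.accU (PTime.const _) f0.snd (PTime.const []) hN
  have g3 : PTime O (fun p : (List Bool × List Unit) × List Bool => pfx p.1.1 p.1.2 q) := by
    unfold pfx tagU
    exact PTime.append f0.fst.fst (PTime.append (PTime.append
      (PTime.map (f := fun _ _ => true) f0.fst.snd (PTime.const _)) (PTime.const _))
      (PTime.const _))
  have g4 : PTime O (fun p : (List Bool × List Unit) × List Bool =>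
      udrop (hd40 ++ pfx p.1.1 p.1.2 q) (decl p.2)) :=
    PTime.udrop (PTime.append (PTime.const hd40) g3) (PTime_decl f0.snd)
  exact (h1.or (PTime_eqT f0.snd (PTime_encT (PTime_wlT
    (PTime.append (PTime.const hd40) (PTime.append g3 g4)))))).of_eq fun x => rfl

/-- the theory -/
theorem exists_TL {B : Fm → Prop} (hB : Base O B) (i : ℕ) : ∃ T : Th,
    (∀ x, Halts O T.1 x [] ((x.length + 2) ^ T.2)) ∧
    ∀ σ, Ax O T σ ↔ B σ ∨ ∃ u, σ = witL (inz (pfxT T i) u) := by
  obtain ⟨b, hbh, hb⟩ := hB.dec
  obtain ⟨T, hT⟩ := quine (PTime_decL (O := O) b (tag i))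
  refine ⟨T, fun x => (hT x).1, fun σ => ?_⟩
  unfold Ax
  rw [(hT σ.enc).2]
  unfold decL
  rw [Bool.or_eq_true, accU_iff, List.length_replicate]
  refine or_congr (hb σ) ?_
  have e1 : pfx (cEnc T.1) (List.replicate T.2 ()) (tag i) = pfxT T i := pfx_eq T i
  simp only [e1]
  rw [eqT_bits, wlT_eq, encT_fm]
  constructor
  · intro h
    exact ⟨_, (enc_inj (a := []) (b := []) (by rw [List.append_nil, List.append_nil]; exact h)).1⟩
  · rintro ⟨u, rfl⟩
    have h1 : udrop (hd40 ++ pfxT T i) (inz (pfxT T i) u) = u := by
      unfold inz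
      rw [udrop_eq, ← List.append_assoc, List.drop_left]
    rw [decl_wit, h1]
    rfl

/-! ## The strings -/

/-- the flag with the prefix `p` and the word `u` -/
def flg (p u : List Bool) : List Bool := ad (inz p u) []

/-- the witness with the prefix `p` and the words `u` and `v` -/
def wts (p u v : List Bool) : List Bool := ad (inz p u) (v ++ List.replicate 20 true)

theorem tk_len (k : ℕ) : (tag k).length = k + 1 := by simp [tag]

theorem enc_head (σ : Fm) : ∃ k l, k < 40 ∧ σ.enc = tag k ++ l := by
  cases σ with
  | eq s t => exact ⟨0, _, by norm_num, rfl⟩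
  | le s t => exact ⟨1, _, by norm_num, rfl⟩
  | orc t => exact ⟨2, _, by norm_num, rfl⟩
  | tr e x w z => exact ⟨3, _, by norm_num, rfl⟩
  | prf p z u v => exact ⟨4, _, by norm_num, rfl⟩
  | neg φ => exact ⟨5, _, by norm_num, rfl⟩
  | imp φ ψ => exact ⟨6, _, by norm_num, rfl⟩
  | all i φ => exact ⟨7, _, by norm_num, rfl⟩

theorem tag_hd {k : ℕ} (hk : k < 40) (a b : List Bool) : tag k ++ a ≠ hd40 ++ b := by
  intro h
  have h1 : (tag k ++ a)[k]? = some false := by
    rw [List.getElem?_append_left (by rw [tk_len]; omega)]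
    unfold tag
    rw [List.getElem?_append_right (by simp)]
    simp
  rw [h] at h1
  unfold hd40 at h1
  rw [List.getElem?_append_left (by simp; omega)] at h1
  rw [List.getElem?_replicate] at h1
  rw [if_pos (by omega)] at h1
  simp at h1

theorem enc_hd (σ : Fm) (b : List Bool) : σ.enc ≠ hd40 ++ b := by
  obtain ⟨k, l, hk, h⟩ := enc_head σ
  rw [h]
  exact tag_hd hk _ _

theorem cEnc_hd (c : Cmd) (a b : List Bool) : cEnc c ++ a ≠ hd40 ++ b := by
  have h : ∃ k l, k < 40 ∧ cEnc c = tag k ++ l := by
    cases c with
    | skip => exact ⟨0, [], by norm_num, by simp [cEnc]⟩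
    | push r b => exact ⟨1, _, by norm_num, rfl⟩
    | pop r => exact ⟨2, _, by norm_num, rfl⟩
    | seq c d => exact ⟨3, _, by norm_num, rfl⟩
    | cond r b c d => exact ⟨4, _, by norm_num, rfl⟩
    | loop r c => exact ⟨5, _, by norm_num, rfl⟩
    | ask r c d => exact ⟨6, _, by norm_num, rfl⟩
  obtain ⟨k, l, hk, h1⟩ := h
  rw [h1, List.append_assoc]
  exact tag_hd hk _ _

theorem flg_eq (p u : List Bool) : flg p u = false :: (hd40 ++ (p ++ u)) := rfl

theorem flg_code (p u : List Bool) (σ : Fm) : flg p u ≠ false :: σ.enc := by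
  rw [flg_eq]
  intro h
  exact enc_hd σ _ (List.cons.inj h).2.symm

theorem dbl_true (k : ℕ) : dbl (List.replicate k true) = List.replicate (2 * k) true := by
  induction k with
  | zero => rfl
  | succ k ih =>
    rw [List.replicate_succ]
    show true :: true :: dbl (List.replicate k true) = _
    rw [ih]
    rfl

theorem wts_eq (p u v : List Bool) : ∃ b, wts p u v = hd40 ++ b := by
  unfold wts ad
  rw [List.reverse_append, List.reverse_replicate, dbl_append, dbl_true, List.append_assoc]
  exact ⟨_, rfl⟩

theorem wts_code (p u v : List Bool) (σ : Fm) : wts p u v ≠ false :: σ.enc := by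
  obtain ⟨b, hb⟩ := wts_eq p u v
  rw [hb]
  intro h
  have := congrArg List.head? h
  simp [hd40, List.replicate_succ] at this

theorem flg_pfx (p u : List Bool) (T : Th) (j : ℕ) (y : List Bool)
    (hh : (pfxT T j).head? = some true) : flg p u ≠ pfxT T j ++ y := by
  intro h
  rcases hp : pfxT T j with _ | ⟨b, q⟩
  · rw [hp] at hh
    simp at hh
  · rw [hp] at h hh
    have h1 := (List.cons.inj h).1
    rw [← h1] at hh
    simp at hh

theorem wts_pfx (p u v : List Bool) (T : Th) (j : ℕ) (y : List Bool) :
    wts p u v ≠ pfxT T j ++ y := by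
  obtain ⟨b, hb⟩ := wts_eq p u v
  rw [hb]
  unfold pfxT
  rw [List.append_assoc]
  exact fun h => cEnc_hd _ _ _ h.symm

theorem inz_inj {p u u' : List Bool} (h : inz p u = inz p u') : u = u' :=
  List.append_cancel_left (List.append_cancel_left h)

theorem flg_inj {p u u' : List Bool} (h : flg p u = flg p u') : u = u' :=
  inz_inj (ad_inj h).1

theorem wts_inj {p u v v' : List Bool} (h : wts p u v = wts p u v') : v = v' :=
  List.append_cancel_right (ad_inj h).2

theorem flg_len (p u : List Bool) : (flg p u).length = p.length + u.length + 41 := by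
  unfold flg inz hd40
  rw [ad_len, List.length_append, List.length_append, List.length_replicate, List.length_nil]
  omega

theorem wts_len (p u v : List Bool) :
    (wts p u v).length = 2 * v.length + p.length + u.length + 81 := by
  unfold wts inz hd40
  rw [ad_len, List.length_append, List.length_append, List.length_append, List.length_replicate,
    List.length_replicate]
  omega

end Pool.Agent.LEN
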