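import Pool.Agent.Lib_helper10.LEN.Acti
import Pool.Agent.Lib_helper10.LEN.Wt

/-!
# The levels
-/

set_option autoImplicit false

namespace Pool.Agent.LEN

open Pool.Agent.CK Pool.Agent.RF Pool.Agent.FS Filter
open Pool.Agent.LIN (cdw cdw_inj cdw_len padW padW_inj padW_true padW_closed act mem_act cost
  exists_touch exists_free ins ins_iff)

/-- the parameters -/
structure Prm extends Par where
  /-- the tasks: the type, the number of `S`, and `T` -/
  cl : ℕ → Bool × ℕ × Th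
  /-- the levels -/
  lv : ℕ → ℕ
  /-- a constant -/
  cw : ℕ

/-- there is an `S`-proof of `Φ` of length at most `L` -/
def Sht (O : Lang) (S : Th) (Φ : Fm) (L : ℕ) : Prop :=
  ∃ l : List Fm, IsProof (Ax O S) (l ++ [Φ]) ∧ (pEnc (l ++ [Φ])).length ≤ L

theorem sht_cert {m : ℕ} {S : Th} {Φ : Fm} {L : ℕ} (h : (L + 2) ^ (S.2 + 2) ≤ 2 ^ m) :
    CertG m (fun O => Sht O S Φ L) := by
  rintro O ⟨l, hl, hlen⟩
  obtain ⟨Q, hQ1, -, hQ2⟩ := proof_queries O S.1
    (fun σ => (σ.enc.length + 2) ^ S.2) (l ++ [Φ]) ((L + 2) ^ S.2) (L + (L + 2) ^ S.2)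
    (fun σ hσ => by
      have g1 := QRY_mem_len hσ
      have g2 : (σ.enc.length + 2) ^ S.2 ≤ (L + 2) ^ S.2 := Nat.pow_le_pow_left (by omega) _
      exact ⟨g2, by omega⟩) hl
  refine ⟨Q.toFinset, ?_, fun O' hO' => ⟨l, hQ2 O' fun q hq => hO' q (List.mem_toFinset.2 hq),
    hlen⟩⟩
  have g1 := QRY_lines (l ++ [Φ])
  have g2 : (l ++ [Φ]).length * (L + 2) ^ S.2 ≤ (L + 2) ^ 2 * (L + 2) ^ S.2 := by
    refine Nat.mul_le_mul_right _ ?_
    have : L + 2 ≤ (L + 2) ^ 2 := Nat.le_self_pow (by norm_num) _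
    omega
  have g3 : (L + 2) ^ 2 * (L + 2) ^ S.2 = (L + 2) ^ (S.2 + 2) := by
    rw [Nat.add_comm S.2 2, pow_add]
  rw [g3] at g2
  exact (List.toFinset_card_le _).trans (hQ1.trans (g2.trans h))

namespace Prm

variable (P : Prm)

/-- the time of level `s` -/
def tm : ℕ → ℕ
  | 0 => 0
  | s + 1 => 2 ^ (P.lv s - 1)

/-- the task of level `s` -/
def tk (s : ℕ) : Bool × ℕ × Th := P.cl (Nat.unpair (s - 1)).1

/-- the theory `S` -/
def S (s : ℕ) : Th := P.en (P.tk s).2.1

/-- the prefix -/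
def pf (s : ℕ) : List Bool := pfxT (P.tk s).2.2 (P.tk s).2.1

/-- the bound of the lengths of the refutations -/
def NN (s : ℕ) : ℕ := 4096 * P.tm s

/-- the bound of the lengths of the proofs -/
def L (s : ℕ) : ℕ := if (P.tk s).1 then P.b (P.tm s) else P.a (P.tm s)

/-- the sentence -/
def Φ (s : ℕ) : Fm := if (P.tk s).1 then RFN (P.tk s).2.2 (P.NN s) else
  RF.Con (P.tk s).2.2 (P.NN s)

/-- the goal -/
def G (s : ℕ) (O : Lang) : Prop := Sht O (P.S s) (P.Φ s) (P.L s)

/-- the flags -/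
def f (s : ℕ) (u : List Bool) : List Bool := if (P.tk s).1 then flg (P.pf s) u else P.pf s ++ u

/-- the witnesses -/
def f' (s : ℕ) (u v : List Bool) : List Bool :=
  if (P.tk s).1 then wts (P.pf s) u v else P.pf s ++ v

/-- the conditions of a level -/
structure K (s : ℕ) : Prop where
  c8 : 8 ≤ P.tm s
  cL : (P.L s + 2) ^ ((P.S s).2 + 2) ≤ 2 ^ P.tm s
  act : P.g (P.tk s).2.1 ≤ P.tm s
  head : (P.pf s).head? = some true
  pre : (P.pf s).length ≤ P.lv (s - 1)
  con : 792 * ((P.pf s).length + 40) + P.cw ≤ 928 * P.tm s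

/-- the worlds of level `s` -/
noncomputable def bs (s : ℕ) (H : Lang) (u v : ℕ → List Bool) (i : ℕ) : Lang :=
  base H (P.f s) (P.f' s) u v i

/-- the outcome of a level -/
structure Out (s : ℕ) (H A : Lang) (w u v : ℕ → List Bool) (a : ℕ) : Prop where
  good : ∀ m', GoodG P.toPar w (P.tm s) m' A
  same : SameR P.toPar (P.tm s) (join P.R H) (join P.R A)
  len : ∀ i < a, (u i).length = 4 * P.tm s - 1 ∧ (v i).length = 4 * P.tm s - 1
  typ : a ≠ 0 → P.K s ∧ (P.tk s).1 = true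
  out : (A = P.bs s H u v a ∧ (P.K s → ¬ P.G s (join P.R (grow P.toPar w (P.tm s) A (P.L s))))) ∨
    (P.K s ∧ (u a).length = 4 * P.tm s - 1 ∧ (∀ i < a, u i ≠ u a) ∧
      A = ins (P.f s (u a)) (P.bs s H u v a) ∧
      P.G s (join P.R (grow P.toPar w (P.tm s) A (P.L s))))

/-- the conditions on the parameters -/
structure Good : Prop where
  gm : StrictMono P.g
  cost : ∀ s N, P.g s ≤ N → LIN.cost P.en (s + 1) N < 2 ^ N
  pcost : ∀ s m, P.g s ≤ P.b m → pcost P.en (s + 1) (P.b m) ≤ 2 ^ m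
  am : Monotone P.a
  bm : Monotone P.b
  ale : ∀ n, n ≤ P.a n
  ab : ∀ n, P.a n ≤ P.b n
  lm : StrictMono P.lv
  l8 : ∀ s, 8 ≤ P.lv s
  l0 : P.b 0 < P.lv 0
  lb : ∀ s, P.b (P.tm (s + 1)) < P.lv (s + 1)

end Prm

variable {P : Prm}

theorem f_inj (s : ℕ) (u u' : List Bool) (h : P.f s u = P.f s u') : u = u' := by
  unfold Prm.f at h
  split_ifs at h
  · exact flg_inj h
  · exact List.append_cancel_left h

theorem f'_inj (s : ℕ) (u v v' : List Bool) (h : P.f' s u v = P.f' s u v') : v = v' := by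
  unfold Prm.f' at h
  split_ifs at h
  · exact wts_inj h
  · exact List.append_cancel_left h

theorem f_long (s : ℕ) {u : List Bool} {m : ℕ} (hu : u.length = 4 * m - 1) :
    4 * m ≤ (P.f s u).length + 1 := by
  unfold Prm.f
  split_ifs
  · rw [flg_len]; omega
  · rw [List.length_append]; omega

theorem f'_long (s : ℕ) {u v : List Bool} {m : ℕ} (hv : v.length = 4 * m - 1) :
    4 * m ≤ (P.f' s u v).length + 1 := by
  unfold Prm.f'
  split_ifs
  · rw [wts_len]; omega
  · rw [List.length_append]; omega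

theorem head_code {p : List Bool} (hp : p.head? = some true) (u : List Bool) (σ : Fm) :
    p ++ u ≠ false :: σ.enc := by
  intro h
  rcases p with _ | ⟨b, p⟩
  · simp at hp
  · have h1 := (List.cons.inj h).1
    rw [h1] at hp
    simp at hp

theorem f_code {s : ℕ} (h : P.K s) (u : List Bool) (σ : Fm) : P.f s u ≠ false :: σ.enc := by
  unfold Prm.f
  split_ifs
  · exact flg_code _ _ _
  · exact head_code h.head _ _

theorem f'_code {s : ℕ} (h : P.K s) (u v : List Bool) (σ : Fm) :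
    P.f' s u v ≠ false :: σ.enc := by
  unfold Prm.f'
  split_ifs
  · exact wts_code _ _ _ _
  · exact head_code h.head _ _

section

variable (h : P.Good)

include h

theorem ble (n : ℕ) : n ≤ P.b n := (h.ale n).trans (h.ab n)

theorem L_le (s : ℕ) : P.L s ≤ P.b (P.tm s) := by
  unfold Prm.L
  split_ifs
  · exact le_rfl
  · exact h.ab _

theorem le_L (s : ℕ) : P.tm s ≤ P.L s := by
  unfold Prm.L
  split_ifs
  · exact ble h _
  · exact h.ale _

/-- **A level.** -/
theorem exists_out (s : ℕ) (H : Lang) : ∃ A w u v a, P.Out s H A w u v a := by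
  classical
  by_cases hK : P.K s
  · -- the game
    obtain ⟨J, hJ1, hJ2, hJ3⟩ := act_pcost (P := P.toPar) h.gm (L_le h s) h.pcost
    have hL : P.L s ≤ 2 ^ P.tm s := by
      refine le_trans ?_ hK.cL
      refine le_trans (by omega : P.L s ≤ P.L s + 2) (Nat.le_self_pow (by omega) _)
    obtain ⟨w, u, v, g1, g2, g3, g4, g5, g6⟩ := good_point (P := P.toPar) h.gm h.cost h.ale
      (m := P.tm s) (L := P.L s) (M := (P.L s + 1) ^ J) hJ2 (G := P.G s) (sht_cert hK.cL) hL hJ3
      hK.c8 H (f := P.f s) (f' := P.f' s) (f_inj s) (f'_inj s)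
    have hGP : GP P.toPar (P.tm s) (P.L s) ((P.L s + 1) ^ J) (P.G s) H (P.f s) (P.f' s) w u v :=
      ⟨g1, g2, g3, g4, g5, g6, fun x y hx hy => ⟨f_long s hx, f'_long s hy⟩, fun n hn => by
        by_contra hcon
        have h1 := h.bm (Nat.not_lt.1 hcon)
        have h2 := L_le h s
        omega⟩
    have hM : 0 < (P.L s + 1) ^ J := Nat.pow_pos (Nat.succ_pos _)
    -- the number of pairs
    obtain ⟨a, ha, hsp, hty⟩ : ∃ a, a < (P.L s + 1) ^ J ∧
        SP P.toPar w (P.tm s) (P.L s) (base H (P.f s) (P.f' s) u v a)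
          (basep H (P.f s) (P.f' s) u v a) ∧ (a ≠ 0 → (P.tk s).1 = true) := by
      by_cases hc : (P.tk s).1 = true
      · obtain ⟨a, ha, h1⟩ := exists_stable hGP (le_L h s) h.ale hJ1 le_rfl
        exact ⟨a, ha, flag_of_pair hGP ha h1, fun _ => hc⟩
      · refine ⟨0, hM, stable_old hGP (fun n hn => ?_) hM, fun h0 => absurd rfl h0⟩
        by_contra hcon
        have h1 := h.am (Nat.not_lt.1 hcon)
        have h2 : P.L s = P.a (P.tm s) := by
          unfold Prm.L
          rw [if_neg hc]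
        omega
    -- the outcome
    by_cases hG : P.G s (join P.R (grow P.toPar w (P.tm s) (base H (P.f s) (P.f' s) u v a)
        (P.L s)))
    · have hG' := outcome hGP ha hsp hG
      obtain ⟨w', hw1, hw2⟩ := exists_plan (P := P.toPar) h.gm h.cost (hGP.goodp a ha.le)
      refine ⟨basep H (P.f s) (P.f' s) u v a, w', u, v, a, hw2, samer_basep hGP ha,
        fun i hi => g1 i (by omega), fun h0 => ⟨hK, hty h0⟩, Or.inr ⟨hK, (g1 a ha).1,
        fun i hi => g2 a i hi ha, rfl, ?_⟩⟩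
      rw [grow_congr (w' := w) (fun t _ ht => hw1 t ht)]
      exact hG'
    · obtain ⟨w', hw1, hw2⟩ := exists_plan (P := P.toPar) h.gm h.cost (hGP.good a ha.le)
      refine ⟨base H (P.f s) (P.f' s) u v a, w', u, v, a, hw2, samer_base hGP ha.le,
        fun i hi => g1 i (by omega), fun h0 => ⟨hK, hty h0⟩, Or.inl ⟨rfl, fun _ => ?_⟩⟩
      rw [grow_congr (w' := w) (fun t _ ht => hw1 t ht)]
      exact hG
  · obtain ⟨w', -, hw2⟩ := exists_plan (P := P.toPar) h.gm h.cost (m := P.tm s) (L := P.tm s)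
      (A := H) (w := fun _ => []) (fun t h1 h2 => by omega)
    exact ⟨H, w', fun _ => [], fun _ => [], 0, hw2, fun _ _ _ _ _ _ => rfl, fun i hi => by omega,
      fun h0 => absurd rfl h0, Or.inl ⟨rfl, fun h1 => absurd h1 hK⟩⟩

end

end Pool.Agent.LEN
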