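import Pool.Agent.Lib_helper10.LEN.Main

/-!
# The lower bound for consistency
-/

set_option autoImplicit false

namespace Pool.Agent.LEN

open Pool.Agent.CK Pool.Agent.RF Pool.Agent.RO Pool.Agent.ADV Pool.Agent.FS Pool.Agent.PLS Filter
open Pool.Agent.LIN (cdw cdw_inj cdw_len padW padW_inj padW_true padW_closed padW_proof act mem_act
  cost exists_touch exists_free ins ins_iff Short refuted rfn_len con_len size_small head_cmd
  not_skip exists_ths)
open Pool.Agent.TC (ad ad_inj ad_len e1)

section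

variable {P : Prm} (h : P.Good) (X : Glb P)
include h

theorem lowC (hen : Function.Surjective P.en) (hcl : Function.Surjective P.cl)
    (hb2 : ∀ k, ∀ᶠ n in atTop, P.b n ^ k ≤ 2 ^ n) {B : Fm → Prop} {S : Th}
    (hB : BaseTheory X.OF B) (hS : InT X.OF B S) :
    ∃ T, InT X.OF B T ∧ ∀ m, ∃ n, m ≤ n ∧ ∀ l : List Fm,
      IsProof (Ax X.OF S) (l ++ [RF.Con T n]) →
        P.a (n / 4096) < (pEnc (l ++ [RF.Con T n])).length := by
  obtain ⟨j, rfl⟩ := hen S
  obtain ⟨T, hTh, hax⟩ := exists_T hB.1 j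
  have hext : ∀ σ, B σ → Ax X.OF T σ := fun σ hσ => (hax σ).mpr (Or.inl hσ)
  have hfal : ¬ Ax X.OF T falsum := by
    intro hf
    rcases (hax _).1 hf with h1 | ⟨l, -, h1⟩
    · exact hB.1.isTrue _ h1 (fun _ => 0) rfl
    · simp [falsum, t1F] at h1
  have hh : (pfxT T j).head? = some true := by
    obtain ⟨l, hl⟩ := head_cmd (not_skip hfal)
    unfold pfxT
    rw [hl]
    rfl
  -- a plant is refuted
  have hbad : ∀ s, P.K s → P.tk s = (false, j, T) → ∀ y : List Bool,
      y.length = 4 * P.tm s - 1 → X.OF (true :: (pfxT T j ++ y)) = true → P.G s X.OF → False := by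
    intro s hK htk y hy hO hG
    have h8 := hK.c8
    obtain ⟨r, rfl⟩ : ∃ r, s = r + 1 := by
      refine ⟨s - 1, ?_⟩
      rcases s with _ | r
      · exact absurd h8 (by show ¬ 8 ≤ 0; norm_num)
      · rfl
    have htm : P.tm (r + 1) = 2 ^ (P.lv r - 1) := rfl
    have hlv := h.l8 r
    have h2 : 2 ^ P.lv r = 2 * P.tm (r + 1) := by
      rw [htm, ← pow_succ']
      congr 1
      omega
    have h3 : 2 ^ (P.lv r + 1) = 4 * P.tm (r + 1) := by
      rw [pow_succ', h2]
      ring
    have hpf : P.pf (r + 1) = pfxT T j := by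
      show pfxT (P.tk (r + 1)).2.2 (P.tk (r + 1)).2.1 = _
      rw [htk]
    have hpre := hK.pre
    rw [hpf, Nat.add_sub_cancel] at hpre
    refine refuted (l := P.lv r) (N := P.NN (r + 1)) (L := P.L (r + 1)) hB.1 hS hext hlv ?_
      ((hax _).2 (Or.inr ⟨P.lv r, hlv, rfl⟩)) hpre (y := y) (by omega) hO ?_
    · unfold Prm.NN
      omega
    · obtain ⟨l, h4, h5⟩ := hG
      have hΦ : P.Φ (r + 1) = RF.Con T (P.NN (r + 1)) := by
        unfold Prm.Φ
        rw [htk]
        rfl
      have hSs : P.S (r + 1) = P.en j := by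
        show P.en (P.tk (r + 1)).2.1 = _
        rw [htk]
      rw [hΦ, hSs] at h4
      rw [hΦ] at h5
      exact ⟨l, _, Or.inr rfl, h4, h5⟩
  -- nothing is planted
  have hno : ∀ y, ¬ X.OF (true :: (pfxT T j ++ y)) = true := by
    intro y hy
    have hy' : X.HF (pfxT T j ++ y) = true := hy
    rcases X.elem hy' with ⟨t, σ, -, -, h4⟩ | ⟨s, h2, h3⟩
    · exact head_code hh y (padW (X.D.w t) σ) h4
    · obtain ⟨w, h4, h5⟩ := X.out s
      obtain ⟨hK, h6⟩ := out_new h4 h2 h3
      by_cases hc : (P.tk s).1 = true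
      · have e1 : ∀ u, P.f s u = flg (P.pf s) u := fun u => if_pos hc
        have e2 : ∀ u v, P.f' s u v = wts (P.pf s) u v := fun u v => if_pos hc
        rcases h6 with ⟨i, -, h7 | h7⟩ | ⟨h7, -⟩
        · rw [e1] at h7
          exact flg_pfx _ _ T j y hh h7.symm
        · rw [e2] at h7
          exact wts_pfx _ _ _ T j y h7.symm
        · rw [e1] at h7
          exact flg_pfx _ _ T j y hh h7.symm
      · have ha0 : X.a s = 0 := by
          by_contra hcon
          exact hc (h4.typ hcon).2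
        rcases h6 with ⟨i, hi, -⟩ | ⟨h7, h8, -, h9⟩
        · omega
        · have e1 : P.f s (X.u s (X.a s)) = P.pf s ++ X.u s (X.a s) := if_neg hc
          rw [e1] at h7
          obtain ⟨g1, g2, g3⟩ := pfxT_inj (T' := (P.tk s).2.2) (i' := (P.tk s).2.1) h7
          have htk : P.tk s = (false, j, T) := by
            refine Prod.ext ?_ (Prod.ext g2.symm g1.symm)
            rcases hb : (P.tk s).1 with _ | _
            · rfl
            · exact absurd hb hc
          refine hbad s hK htk y (by rw [g3]; exact h8) hy ?_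
          exact (X.goal_iff h hK h5).1 h9
  have htrue : ∀ σ, Ax X.OF T σ → σ.True X.OF := by
    intro σ hσ
    rcases (hax σ).mp hσ with h1 | ⟨l, -, rfl⟩
    · exact hB.1.isTrue σ h1
    · exact t1F_true fun y _ hy => hno y hy
  have hT : InT X.OF B T := by
    refine ⟨hTh, hext, fun σ hσ => ?_, fun hp => ?_⟩
    · rcases (hax σ).mp hσ with h1 | ⟨l, -, rfl⟩
      · exact hB.1.closed σ h1
      · exact t1F_closed _ _
    · exact sound htrue hp (fun _ => 0) rfl
  refine ⟨T, hT, fun m => ?_⟩
  obtain ⟨s, hs1, hK, htk⟩ := exists_level h hb2 hcl false j T hh m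
  have hc : (P.tk s).1 = false := by rw [htk]
  have hpf : P.pf s = pfxT T j := by
    show pfxT (P.tk s).2.2 (P.tk s).2.1 = _
    rw [htk]
  have hgoal : ¬ P.G s X.OF := by
    refine no_goal h X hK fun u hu _ _ _ => hno u ?_
    show X.HF (pfxT T j ++ u) = true
    rw [X.HF_iff]
    refine ⟨P.tm s, ?_⟩
    have e1 : P.f s u = pfxT T j ++ u := by
      unfold Prm.f
      rw [hc, hpf]
      rfl
    rwa [e1] at hu
  refine ⟨P.NN s, ?_, fun l hl => ?_⟩
  · unfold Prm.NN
    omega
  · have e1 : P.NN s / 4096 = P.tm s := Nat.mul_div_cancel_left _ (by norm_num)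
    rw [e1]
    by_contra hcon
    refine hgoal ⟨l, ?_, ?_⟩
    · have hΦ : P.Φ s = RF.Con T (P.NN s) := by
        unfold Prm.Φ
        rw [htk]
        rfl
      have hSs : P.S s = P.en j := by
        show P.en (P.tk s).2.1 = _
        rw [htk]
      rw [hΦ, hSs]
      exact hl
    · have hΦ : P.Φ s = RF.Con T (P.NN s) := by
        unfold Prm.Φ
        rw [htk]
        rfl
      have hL : P.L s = P.a (P.tm s) := by
        unfold Prm.L
        rw [hc]
        rfl
      rw [hΦ, hL]
      exact Nat.not_lt.1 hcon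

end

end Pool.Agent.LEN
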