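import Pool.Agent.Lib_helper10.LEN.LowC

/-!
# The lower bound for reflection
-/

set_option autoImplicit false

namespace Pool.Agent.LEN

open Pool.Agent.CK Pool.Agent.RF Pool.Agent.RO Pool.Agent.ADV Pool.Agent.FS Pool.Agent.PLS Filter
open Pool.Agent.LIN (cdw cdw_inj cdw_len padW padW_inj padW_true padW_closed padW_proof act mem_act
  cost exists_touch exists_free ins ins_iff Short refuted rfn_len con_len size_small head_cmd
  not_skip exists_ths)
open Pool.Agent.TC (ad ad_inj ad_len e1 dbl)

theorem ad_head {z y : List Bool} (hy : y ≠ []) (σ : Fm) : ad z y ≠ false :: σ.enc := by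
  unfold ad
  have h1 : y.reverse ≠ [] := fun h => hy (List.reverse_eq_nil_iff.1 h)
  rcases hr : y.reverse with _ | ⟨b, l⟩
  · exact absurd hr h1
  · intro h
    have := (List.cons.inj h).1
    simp at this

theorem inz_inj' {T T' : Th} {j j' : ℕ} {u u' : List Bool}
    (h : inz (pfxT T j) u = inz (pfxT T' j') u') : T = T' ∧ j = j' ∧ u = u' :=
  pfxT_inj (List.append_cancel_left h)

theorem inz_len (p u : List Bool) : (inz p u).length = p.length + u.length + 40 := by
  unfold inz hd40
  rw [List.length_append, List.length_append, List.length_replicate]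
  omega

section

variable {P : Prm} (h : P.Good) (X : Glb P)
include h

theorem tm_big {s : ℕ} (hs : s ≠ 0) : 128 ≤ P.tm s ∧ 128 * (P.tm s - 6) ≤ P.tm (s + 1) := by
  obtain ⟨r, rfl⟩ : ∃ r, s = r + 1 := ⟨s - 1, by omega⟩
  have h1 : 128 ≤ P.tm (r + 1) := by
    show 128 ≤ 2 ^ (P.lv r - 1)
    have h2 := h.l8 r
    calc 128 = 2 ^ 7 := by norm_num
      _ ≤ 2 ^ (P.lv r - 1) := Nat.pow_le_pow_right (by norm_num) (by omega)
  refine ⟨h1, ?_⟩
  have h2 : P.tm (r + 1) < P.lv (r + 1) := (ble h _).trans_lt (h.lb r)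
  have h3 : P.tm (r + 1 + 1) = 2 ^ (P.lv (r + 1) - 1) := rfl
  rw [h3]
  generalize P.tm (r + 1) = t at *
  have h4 : t - 7 < 2 ^ (t - 7) := Nat.lt_two_pow_self
  have h5 : 2 ^ t = 128 * 2 ^ (t - 7) := by
    have : 2 ^ t = 2 ^ (7 + (t - 7)) := by congr 1; omega
    rw [this, pow_add]
    norm_num
  have h6 : 2 ^ t ≤ 2 ^ (P.lv (r + 1) - 1) := Nat.pow_le_pow_right (by norm_num) (by omega)
  omega

theorem pf_le {s : ℕ} (hK : P.K s) : s ≠ 0 ∧ (P.pf s).length ≤ P.tm s := by
  have h8 := hK.c8
  have hs : s ≠ 0 := by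
    rintro rfl
    exact absurd h8 (by show ¬ 8 ≤ 0; norm_num)
  obtain ⟨r, rfl⟩ : ∃ r, s = r + 1 := ⟨s - 1, by omega⟩
  refine ⟨hs, ?_⟩
  have h1 := hK.pre
  rw [Nat.add_sub_cancel] at h1
  have h2 : P.tm (r + 1) = 2 ^ (P.lv r - 1) := rfl
  have h3 : P.lv r - 1 < 2 ^ (P.lv r - 1) := Nat.lt_two_pow_self
  have h4 := h.l8 r
  omega

/-- a flag that was planted without a pair has no witness -/
theorem no_wit {s : ℕ} (hK : P.K s) (hc : (P.tk s).1 = true) {y : List Bool}
    (hy : y.length = 4 * P.tm s - 1) (hne : ∀ i < X.a s, X.u s i ≠ y) {y' : List Bool}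
    (hy' : y' ≠ []) (hlen : y'.length ≤ 16 * ((inz (P.pf s) y).length + 2)) :
    ¬ X.OF (true :: ad (inz (P.pf s) y) y') = true := by
  intro hO
  have hO' : X.HF (ad (inz (P.pf s) y) y') = true := hO
  rcases X.elem hO' with ⟨t, σ, -, -, h4⟩ | ⟨s', h2, h3⟩
  · exact ad_head hy' _ h4
  · obtain ⟨w, h4, -⟩ := X.out s'
    obtain ⟨hK', h6⟩ := out_new h4 h2 h3
    have hzl := inz_len (P.pf s) y
    have hadl := ad_len (inz (P.pf s) y) y'
    obtain ⟨hs0, hpl⟩ := pf_le h hK
    obtain ⟨hs0', hpl'⟩ := pf_le h hK'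
    have hb1 := tm_big h hs0
    have hb2 := tm_big h hs0'
    rcases lt_trichotomy s' s with hss | hss | hss
    · -- an earlier level
      have hm : P.tm (s' + 1) ≤ P.tm s := (tm_mono h).monotone hss
      have hup : (ad (inz (P.pf s) y) y').length ≤ 13 * P.tm s' + 81 := by
        have hf : ∀ u : List Bool, u.length = 4 * P.tm s' - 1 →
            (P.f s' u).length ≤ 13 * P.tm s' + 81 := by
          intro u hu
          unfold Prm.f
          split_ifs
          · rw [flg_len]; omega
          · rw [List.length_append]; omega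
        have hf' : ∀ u v : List Bool, u.length = 4 * P.tm s' - 1 → v.length = 4 * P.tm s' - 1 →
            (P.f' s' u v).length ≤ 13 * P.tm s' + 81 := by
          intro u v hu hv
          unfold Prm.f'
          split_ifs
          · rw [wts_len]; omega
          · rw [List.length_append]; omega
        rcases h6 with ⟨i, hi, h7 | h7⟩ | ⟨h7, h8, -⟩
        · rw [h7]; exact hf _ (h4.len i hi).1
        · rw [h7]; exact hf' _ _ (h4.len i hi).1 (h4.len i hi).2
        · rw [h7]; exact hf _ h8
      omega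
    · -- the same level
      subst hss
      have e1 : ∀ u, P.f s' u = flg (P.pf s') u := fun u => if_pos hc
      have e2 : ∀ u v, P.f' s' u v = wts (P.pf s') u v := fun u v => if_pos hc
      rcases h6 with ⟨i, hi, h7 | h7⟩ | ⟨h7, -⟩
      · rw [e1] at h7
        exact hy' (ad_inj h7).2
      · rw [e2] at h7
        exact hne i hi (inz_inj (ad_inj h7).1).symm
      · rw [e1] at h7
        exact hy' (ad_inj h7).2
    · -- a later level
      have hm : P.tm (s + 1) ≤ P.tm s' := (tm_mono h).monotone hss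
      have hlo := out_long h4 h2 h3
      omega

theorem lowR (hen : Function.Surjective P.en) (hcl : Function.Surjective P.cl)
    (hb2 : ∀ k, ∀ᶠ n in atTop, P.b n ^ k ≤ 2 ^ n)
    (hcw : ∀ u : List Bool, Nat.size (val (pEnc [witL u])) ≤ 792 * u.length + P.cw ∧
      Nat.size e1 ≤ 792 * u.length + P.cw ∧ Nat.size (val u) ≤ 792 * u.length + P.cw ∧
      Nat.size (zl u.length) ≤ 792 * u.length + P.cw) {B : Fm → Prop} {S : Th}
    (hB : BaseTheory X.OF B) (hS : InT X.OF B S) :
    ∃ T, InT X.OF B T ∧ ∀ m, ∃ n, m ≤ n ∧ ∀ l : List Fm,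
      IsProof (Ax X.OF S) (l ++ [RFN T n]) →
        P.b (n / 4096) < (pEnc (l ++ [RFN T n])).length := by
  obtain ⟨j, rfl⟩ := hen S
  obtain ⟨T, hTh, hax⟩ := exists_TL hB.1.toBase j
  have hext : ∀ σ, B σ → Ax X.OF T σ := fun σ hσ => (hax σ).mpr (Or.inl hσ)
  have hfal : ¬ Ax X.OF T falsum := by
    intro hf
    rcases (hax _).1 hf with h1 | ⟨l, h1⟩
    · exact hB.1.isTrue _ h1 (fun _ => 0) rfl
    · simp [falsum, witL, mu] at h1
  have hh : (pfxT T j).head? = some true := by
    obtain ⟨l, hl⟩ := head_cmd (not_skip hfal)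
    unfold pfxT
    rw [hl]
    rfl
  -- a flag without witness is refuted
  have hbad : ∀ s, P.K s → P.tk s = (true, j, T) → ∀ y : List Bool,
      y.length = 4 * P.tm s - 1 → (∀ i < X.a s, X.u s i ≠ y) →
      X.OF (true :: flg (pfxT T j) y) = true → P.G s X.OF → False := by
    intro s hK htk y hy hne hO hG
    have hpf : P.pf s = pfxT T j := by
      show pfxT (P.tk s).2.2 (P.tk s).2.1 = _
      rw [htk]
    have hc : (P.tk s).1 = true := by rw [htk]
    have hM : ¬ MuT X.OF e1 (val (inz (pfxT T j) y)) (zl (inz (pfxT T j) y).length) := by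
      intro hM
      rcases of_muL hM with h1 | ⟨y', h1, h2, h3⟩
      · have h4 : X.OF (true :: flg (pfxT T j) y) = false := h1
        rw [hO] at h4
        exact Bool.noConfusion h4
      · rw [← hpf] at h2 h3
        exact no_wit h X hK hc hy hne h1 h2 h3
    have hN : 792 * (inz (pfxT T j) y).length + P.cw ≤ P.NN s := by
      have h1 := hK.con
      have h2 := hK.c8
      rw [hpf] at h1
      rw [inz_len, hy]
      unfold Prm.NN
      generalize P.tm s = t at *
      generalize (pfxT T j).length = q at *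
      omega
    obtain ⟨g1, g2, g3, g4⟩ := hcw (inz (pfxT T j) y)
    have hR : ¬ RfnT X.OF T (P.NN s) :=
      not_rfnL ((hax _).2 (Or.inr ⟨y, rfl⟩)) hM (g1.trans hN) (g2.trans hN) (g3.trans hN)
        (g4.trans hN)
    have h1 : ¬ (RFN T (P.NN s)).True X.OF := fun hh =>
      hR ((holds_RFN _ (fun _ => 0) T _).mp (hh _))
    obtain ⟨l, hl, -⟩ := hG
    have hΦ : P.Φ s = RFN T (P.NN s) := by
      unfold Prm.Φ
      rw [htk]
      rfl
    have hSs : P.S s = P.en j := by
      show P.en (P.tk s).2.1 = _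
      rw [htk]
    rw [hΦ, hSs] at hl
    exact hS.cons (prv_bot ⟨l, hl⟩ (prv_mono hS.ext (hB.1.refRFN T _ h1)))
  -- the axioms are true
  have htrue : ∀ σ, Ax X.OF T σ → σ.True X.OF := by
    intro σ hσ
    rcases (hax σ).mp hσ with h1 | ⟨u, rfl⟩
    · exact hB.1.isTrue σ h1
    refine witL_true ?_
    rcases hO : X.OF (true :: ad (inz (pfxT T j) u) []) with _ | _
    · exact mu_ofL (y := []) (Nat.zero_le _) (Or.inl ⟨rfl, hO⟩)
    · have hO' : X.HF (flg (pfxT T j) u) = true := hO
      rcases X.elem hO' with ⟨t, σ, -, -, h4⟩ | ⟨s, h2, h3⟩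
      · exact absurd h4 (flg_code _ _ _)
      · obtain ⟨w, h4, h5⟩ := X.out s
        obtain ⟨hK, h6⟩ := out_new h4 h2 h3
        by_cases hc : (P.tk s).1 = true
        · have e1 : ∀ u, P.f s u = flg (P.pf s) u := fun u => if_pos hc
          have e2 : ∀ u v, P.f' s u v = wts (P.pf s) u v := fun u v => if_pos hc
          have key : ∀ u', flg (pfxT T j) u = flg (P.pf s) u' →
              P.tk s = (true, j, T) ∧ u = u' := by
            intro u' h7
            obtain ⟨g1, g2, g3⟩ := inz_inj' (T' := (P.tk s).2.2) (j' := (P.tk s).2.1)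
              (ad_inj h7).1
            exact ⟨Prod.ext hc (Prod.ext g2.symm g1.symm), g3⟩
          rcases h6 with ⟨i, hi, h7 | h7⟩ | ⟨h7, h8, h9, h10⟩
          · rw [e1] at h7
            obtain ⟨htk, g3⟩ := key _ h7
            have hpf : P.pf s = pfxT T j := by
              show pfxT (P.tk s).2.2 (P.tk s).2.1 = _
              rw [htk]
            have h8 := out_pair h4 hi
            rw [e2, hpf, ← g3] at h8
            have hl := (h4.len i hi).2
            have hu := (h4.len i hi).1
            refine mu_ofL (y := X.v s i ++ List.replicate 20 true) ?_ (Or.inr ⟨?_, ?_⟩)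
            · rw [List.length_append, List.length_replicate, inz_len, g3, hl, hu]
              omega
            · simp
            · show X.HF (wts (pfxT T j) u (X.v s i)) = true
              rw [X.HF_iff]
              exact ⟨_, h8⟩
          · rw [e2] at h7
            have h8 := (ad_inj h7).2
            simp at h8
          · rw [e1] at h7
            obtain ⟨htk, g3⟩ := key _ h7
            refine absurd ((X.goal_iff h hK h5).1 h10) fun hG => ?_
            refine hbad s hK htk u (by rw [g3]; exact h8) (fun i hi => by rw [g3]; exact h9 i hi)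
              hO' hG
        · have e1 : ∀ u, P.f s u = P.pf s ++ u := fun u => if_neg hc
          have e2 : ∀ u v, P.f' s u v = P.pf s ++ v := fun u v => if_neg hc
          rcases h6 with ⟨i, -, h7 | h7⟩ | ⟨h7, -⟩
          · rw [e1] at h7
            exact absurd h7 (flg_pfx _ _ _ _ _ hK.head)
          · rw [e2] at h7
            exact absurd h7 (flg_pfx _ _ _ _ _ hK.head)
          · rw [e1] at h7
            exact absurd h7 (flg_pfx _ _ _ _ _ hK.head)
  have hT : InT X.OF B T := by
    refine ⟨hTh, hext, fun σ hσ => ?_, fun hp => ?_⟩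
    · rcases (hax σ).mp hσ with h1 | ⟨u, rfl⟩
      · exact hB.1.closed σ h1
      · exact closed_mu _ _ _
    · exact sound htrue hp (fun _ => 0) rfl
  refine ⟨T, hT, fun m => ?_⟩
  obtain ⟨s, hs1, hK, htk⟩ := exists_level h hb2 hcl true j T hh m
  have hc : (P.tk s).1 = true := by rw [htk]
  have hpf : P.pf s = pfxT T j := by
    show pfxT (P.tk s).2.2 (P.tk s).2.1 = _
    rw [htk]
  have hgoal : ¬ P.G s X.OF := by
    refine no_goal h X hK fun u hu hG hne hlen => ?_
    have e1 : P.f s u = flg (pfxT T j) u := by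
      unfold Prm.f
      rw [hc, hpf]
      rfl
    rw [e1] at hu
    exact hbad s hK htk u hlen hne (by
      show X.HF (flg (pfxT T j) u) = true
      rw [X.HF_iff]
      exact ⟨_, hu⟩) hG
  refine ⟨P.NN s, ?_, fun l hl => ?_⟩
  · unfold Prm.NN
    omega
  · have e1 : P.NN s / 4096 = P.tm s := Nat.mul_div_cancel_left _ (by norm_num)
    rw [e1]
    by_contra hcon
    have hΦ : P.Φ s = RFN T (P.NN s) := by
      unfold Prm.Φ
      rw [htk]
      rfl
    have hSs : P.S s = P.en j := by
      show P.en (P.tk s).2.1 = _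
      rw [htk]
    have hL : P.L s = P.b (P.tm s) := by
      unfold Prm.L
      rw [hc]
      rfl
    refine hgoal ⟨l, ?_, ?_⟩
    · rw [hΦ, hSs]
      exact hl
    · rw [hΦ, hL]
      exact Nat.not_lt.1 hcon

end

end Pool.Agent.LEN
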