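import Pool.Agent.Lib_helper10.LEN.Fin
import Pool.Agent.Lib_helper10.LIN.Main

/-!
# The theorem with two growth rates
-/

set_option autoImplicit false

namespace Pool.Agent.LEN

open Pool.Agent.CK Pool.Agent.RF Pool.Agent.RO Pool.Agent.ADV Pool.Agent.FS Pool.Agent.PLS Filter
open Pool.Agent.LIN (cdw cdw_inj cdw_len padW padW_inj padW_true padW_closed padW_proof act mem_act
  cost exists_touch exists_free ins ins_iff Short refuted rfn_len con_len size_small head_cmd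
  not_skip exists_ths)
open Pool.Agent.TC (ad ad_inj ad_len e1)

/-- For every base theory some `S` in the class has, for all `T` in the class, proofs of
`Con_T(n)` of length at most `hc n + c` and of `Σ^b_1RFN_T(n)` of length at most `hr n + c`. -/
def Upper2 (O : Lang) (hc hr : ℕ → ℕ) : Prop := ∀ B, BaseTheory O B → ∃ S, InT O B S ∧
  ∀ T, InT O B T → ∃ c : ℕ, ∀ n,
    (∃ l : List Fm, IsProof (Ax O S) (l ++ [RF.Con T n]) ∧
      (pEnc (l ++ [RF.Con T n])).length ≤ hc n + c) ∧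
    ∃ l : List Fm, IsProof (Ax O S) (l ++ [RFN T n]) ∧
      (pEnc (l ++ [RFN T n])).length ≤ hr n + c

/-- For every base theory and every `S` in the class there is `T` in the class such that for
infinitely many `n` all `S`-proofs of `Con_T(n)` are longer than `lc n`, and there is `T` in the
class such that for infinitely many `n` all `S`-proofs of `Σ^b_1RFN_T(n)` are longer than `lr n`. -/
def Lower2 (O : Lang) (lc lr : ℕ → ℕ) : Prop := ∀ B, BaseTheory O B → ∀ S, InT O B S →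
  (∃ T, InT O B T ∧ ∀ m, ∃ n, m ≤ n ∧ ∀ l : List Fm,
    IsProof (Ax O S) (l ++ [RF.Con T n]) → lc n < (pEnc (l ++ [RF.Con T n])).length) ∧
  ∃ T, InT O B T ∧ ∀ m, ∃ n, m ≤ n ∧ ∀ l : List Fm,
    IsProof (Ax O S) (l ++ [RFN T n]) → lr n < (pEnc (l ++ [RFN T n])).length

section

variable {P : Prm} (h : P.Good) (X : Glb P)
include h

theorem upper (hen : Function.Surjective P.en) :
    Upper2 X.OF (fun n => 33 * P.a n) (fun n => 33 * P.b n) := by
  intro B hB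
  have hna := h.ale
  have hnb := ble h
  obtain ⟨S, hS, hax⟩ := adv_S hB.1.toBase (X.code_ok hna hnb)
  have key : ∀ (j : ℕ) (Φ : ℕ → Fm) (r : ℕ → ℕ), Monotone r → (∀ n, n ≤ r n) →
      (∀ n k, P.g j ≤ n → k ≤ n → Sent P.toPar (r n) (Φ k)) →
      (∀ k, (Φ k).True X.OF) → (∃ K, ∀ k, (Φ k).enc.length ≤ 96 * Nat.size k + K) →
      ∃ c, ∀ n, ∃ l : List Fm, IsProof (Ax X.OF S) (l ++ [Φ n]) ∧
        (pEnc (l ++ [Φ n])).length ≤ 33 * r n + c := by
    rintro j Φ r hr hr1 h1 h2 ⟨K, hK⟩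
    obtain ⟨c, hc⟩ := size_small 192
    refine ⟨32 * r (P.g j) + 121 + 2 * K + c, fun k => ?_⟩
    have h3 := h1 (max k (P.g j)) k (le_max_right _ _) (le_max_left _ _)
    obtain ⟨l, hl1, hl2⟩ := padW_proof (hax _ (X.code_full hna hnb h3 (h2 k)))
    refine ⟨l, hl1, hl2.trans ?_⟩
    have h4 : (X.D.w (r (max k (P.g j)))).length = 4 * r (max k (P.g j)) + 7 :=
      ((X.ok (r (max k (P.g j)) + 1)).words _ (Nat.zero_le _) (Nat.lt_succ_self _)).1
    have h5 := hK k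
    have h6 := hc k
    have h7 : r (max k (P.g j)) ≤ r k + r (P.g j) := by
      rcases le_total k (P.g j) with h8 | h8
      · rw [max_eq_right h8]; omega
      · rw [max_eq_left h8]; omega
    have h8 := hr1 k
    rw [h4]
    omega
  refine ⟨S, hS, fun T hT => ?_⟩
  obtain ⟨j, rfl⟩ := hen T
  obtain ⟨c1, hc1⟩ := key j (RF.Con (P.en j)) P.a h.am hna
    (fun n k hj hk => ⟨j, k, n, hj, hk, Or.inl ⟨rfl, rfl⟩⟩)
    (fun k v => (holds_Con _ v _ k).2 (inT_conT hT k)) (con_len _)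
  obtain ⟨c2, hc2⟩ := key j (RFN (P.en j)) P.b h.bm hnb
    (fun n k hj hk => ⟨j, k, n, hj, hk, Or.inr ⟨rfl, rfl⟩⟩)
    (fun k => rfn_true hB.1.toBase hT k) (rfn_len _)
  refine ⟨c1 + c2, fun n => ⟨?_, ?_⟩⟩
  · obtain ⟨l, hl1, hl2⟩ := hc1 n
    exact ⟨l, hl1, hl2.trans (Nat.add_le_add_left (Nat.le_add_right _ _) _)⟩
  · obtain ⟨l, hl1, hl2⟩ := hc2 n
    exact ⟨l, hl1, hl2.trans (Nat.add_le_add_left (Nat.le_add_left _ _) _)⟩

/-- the conditions of a large level -/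
theorem exists_level (hb2 : ∀ k, ∀ᶠ n in atTop, P.b n ^ k ≤ 2 ^ n)
    (hcl : Function.Surjective P.cl) (c : Bool) (j : ℕ) (T : Th)
    (hh : (pfxT T j).head? = some true) (m : ℕ) :
    ∃ s, m ≤ P.tm s ∧ P.K s ∧ P.tk s = (c, j, T) := by
  obtain ⟨i, hi⟩ := hcl (c, j, T)
  obtain ⟨n1, hn1⟩ := (sub_pow (ble h) hb2 ((P.en j).2 + 2)).exists_forall_of_atTop
  obtain ⟨lp, hlp⟩ : ∃ lp, lp = (pfxT T j).length := ⟨_, rfl⟩
  obtain ⟨b, hb⟩ : ∃ b, b = P.g j + lp + n1 + m + 8 + 792 * (lp + 40) + P.cw := ⟨_, rfl⟩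
  obtain ⟨s, hs⟩ : ∃ s, s = Nat.pair i b := ⟨_, rfl⟩
  have hbs : b ≤ s := by rw [hs]; exact Nat.right_le_pair _ _
  have htk : P.tk (s + 1) = (c, j, T) := by
    show P.cl (Nat.unpair (s + 1 - 1)).1 = _
    rw [Nat.add_sub_cancel, hs, Nat.unpair_pair]
    exact hi
  have hpf : P.pf (s + 1) = pfxT T j := by
    show pfxT (P.tk (s + 1)).2.2 (P.tk (s + 1)).2.1 = _
    rw [htk]
  have hS : P.S (s + 1) = P.en j := by
    show P.en (P.tk (s + 1)).2.1 = _
    rw [htk]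
  have ht : s + 1 ≤ P.tm (s + 1) := (tm_mono h).le_apply
  have hl : s ≤ P.lv s := h.lm.le_apply
  refine ⟨s + 1, by omega, ⟨by omega, ?_, ?_, ?_, ?_, ?_⟩, htk⟩
  · rw [hS]
    refine le_trans (Nat.pow_le_pow_left (Nat.add_le_add_right (L_le h (s + 1)) 2) _) ?_
    exact hn1 _ (by omega)
  · rw [htk]
    show P.g j ≤ _
    omega
  · rw [hpf]
    exact hh
  · rw [hpf, Nat.add_sub_cancel, ← hlp]
    omega
  · rw [hpf, ← hlp]
    omega

/-- the result of a level whose flag was not planted -/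
theorem no_goal {s : ℕ} (hK : P.K s)
    (hno : ∀ u, X.D.AS (P.tm s) (P.f s u) = true → P.G s X.OF → (∀ i < X.a s, X.u s i ≠ u) →
      u.length = 4 * P.tm s - 1 → False) : ¬ P.G s X.OF := by
  obtain ⟨w, hw, hw2⟩ := X.out s
  rcases hw.out with ⟨-, h2⟩ | ⟨-, h2, h3, h4, h5⟩
  · intro h3
    exact h2 hK ((X.goal_iff h hK hw2).2 h3)
  · intro h6
    refine hno (X.u s (X.a s)) ?_ h6 h3 h2
    rw [h4]
    exact (ins_iff _ _ _).2 (Or.inr rfl)

end

end Pool.Agent.LEN
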