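import Pool.Agent.Lib_helper10.LEN.LowR
import Pool.Agent.Lib_helper82.TPR.Main
import Pool.Agent.Lib_helper78.PLS.InfPH

/-!
# Every pair of growth rates
-/

set_option autoImplicit false

namespace Pool.Agent.LEN

open Pool.Agent.CK Pool.Agent.RF Pool.Agent.RO Pool.Agent.ADV Pool.Agent.FS Pool.Agent.PLS Filter
open Pool.Agent.LIN (exists_ths)

theorem exists_tasks : ∃ cl : ℕ → Bool × ℕ × Th, Function.Surjective cl := by
  have := LIN.th_countable
  have : Nonempty (Bool × ℕ × Th) := ⟨(true, 0, (Cmd.skip, 0))⟩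
  exact exists_surjective_nat (Bool × ℕ × Th)

theorem exists_lv (b : ℕ → ℕ) : ∃ lv : ℕ → ℕ, StrictMono lv ∧ (∀ s, 8 ≤ lv s) ∧ b 0 < lv 0 ∧
    ∀ s, b (2 ^ (lv s - 1)) < lv (s + 1) := by
  obtain ⟨lv, h1, h2⟩ := SEQ_gen (P := fun _ m => 8 + b 0 < m)
    (fun _ => eventually_gt_atTop (8 + b 0)) (fun _ m => b (2 ^ (m - 1)))
  exact ⟨lv, h1, fun s => by have := (h2 s).1; omega, by have := (h2 0).1; omega,
    fun s => (h2 s).2⟩

/-- **Every pair of growth rates `a ≤ b` is the pair of the lengths of the proofs of finite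
consistency and of finite reflection, relative to `R ⊕ W` for some `W`.** -/
theorem spectrum2 (R : Lang) {a b : ℕ → ℕ} (ha : Monotone a) (hb : Monotone b)
    (hna : ∀ n, n ≤ a n) (hab : ∀ n, a n ≤ b n) (hb2 : ∀ k, ∀ᶠ n in atTop, b n ^ k ≤ 2 ^ n) :
    ∃ W : Lang, (∃ B, BaseTheory (join R W) B) ∧
      Upper2 (join R W) (fun n => 33 * a n) (fun n => 33 * b n) ∧
      Lower2 (join R W) (fun n => a (n / 4096)) (fun n => b (n / 4096)) := by
  obtain ⟨en, hen⟩ := exists_ths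
  obtain ⟨cl, hcl⟩ := exists_tasks
  obtain ⟨g, hg, hcost, hp⟩ := exists_act2 en hb (fun n => (hna n).trans (hab n)) hb2
  obtain ⟨lv, g1, g2, g3, g4⟩ := exists_lv b
  obtain ⟨cw, hcw⟩ := witL_len
  let P : Prm := ⟨⟨R, en, g, a, b⟩, cl, lv, cw⟩
  have hP : P.Good := ⟨hg, hcost, hp, ha, hb, hna, hab, g1, g2, g3, g4⟩
  obtain ⟨X⟩ := exists_glb hP
  exact ⟨X.HF, base_all _, upper hP X hen, fun B hB S hS =>
    ⟨lowC hP X hen hcl hb2 hB hS, lowR hP X hen hcl hb2 hcw hB hS⟩⟩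

theorem inP_left (R W : Lang) : InP (join R W) R :=
  CKP.inP_of (CKP.PTime.lift (CKP.PTime.ask CKP.PTime.id))

/-- the same, with an oracle above `R` -/
theorem spectrum2O (R : Lang) {a b : ℕ → ℕ} (ha : Monotone a) (hb : Monotone b)
    (hna : ∀ n, n ≤ a n) (hab : ∀ n, a n ≤ b n) (hb2 : ∀ k, ∀ᶠ n in atTop, b n ^ k ≤ 2 ^ n) :
    ∃ O : Lang, InP O R ∧ (∃ B, BaseTheory O B) ∧
      Upper2 O (fun n => 33 * a n) (fun n => 33 * b n) ∧
      Lower2 O (fun n => a (n / 4096)) (fun n => b (n / 4096)) := by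
  obtain ⟨W, h1, h2, h3⟩ := spectrum2 R ha hb hna hab hb2
  exact ⟨join R W, inP_left R W, h1, h2, h3⟩

end Pool.Agent.LEN
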