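import Pool.Agent.Lib_helper10.LEN.LenDef2
import Pool.Agent.Lib_helper10.LEN.Two
import Pool.Agent.Lib_helper57.PX.IsoB

/-! # Comparison of the definitions of the lengths of proofs (MP_5c38ab_lc) -/

set_option autoImplicit false

namespace Pool.Agent.PX

theorem lengths2_iff (O : Lang) (loC hiC loR hiR : ℕ → ℕ) :
    ((∃ B, PLS.BaseTheory O B) ∧ LEN.Upper2 O hiC hiR ∧ LEN.Lower2 O loC loR) ↔
      LengthsConRFN O loC hiC loR hiR := by
  unfold LEN.Upper2 LEN.Lower2 LengthsConRFN
  rw [exB, allB, allB, ← forall_and]
  simp only [base_oB]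
  refine and_congr Iff.rfl (forall_congr' fun B => ?_)
  rw [← imp_and]
  refine imp_congr Iff.rfl (and_congr ?_ ?_)
  · rw [exTh]
    refine exists_congr fun p => exists_congr fun k => and_congr (inT_iff O B p k) ?_
    rw [allTh]
    refine forall_congr' fun q => forall_congr' fun m => imp_congr (inT_iff O B q m)
      (exists_congr fun c => forall_congr' fun n => ?_)
    rw [← rfn_eq, ← con_eq]
    exact and_congr (proofOf_iff (ax_iff O p k) (Con q m n) (fun x => x.length ≤ hiC n + c))
      (proofOf_iff (ax_iff O p k) (RFN q m n) (fun x => x.length ≤ hiR n + c))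
  · rw [allTh]
    refine forall_congr' fun p => forall_congr' fun k => imp_congr (inT_iff O B p k) ?_
    rw [exTh, exTh]
    refine and_congr ?_ ?_
    · refine exists_congr fun q => exists_congr fun m => and_congr (inT_iff O B q m)
        (forall_congr' fun n₀ => exists_congr fun n => and_congr Iff.rfl ?_)
      rw [← con_eq]
      exact allProofs_iff (ax_iff O p k) (Con q m n) (fun x => loC n < x.length)
    · refine exists_congr fun q => exists_congr fun m => and_congr (inT_iff O B q m)
        (forall_congr' fun n₀ => exists_congr fun n => and_congr Iff.rfl ?_)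
      rw [← rfn_eq]
      exact allProofs_iff (ax_iff O p k) (RFN q m n) (fun x => loR n < x.length)

end Pool.Agent.PX
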