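import Pool.Agent.Lib_helper10.LIN.Final
import Pool.Agent.Lib_helper10.LIN.Px
import Pool.Agent.Lib_helper10.LEN.Px2

/-!
# One statement for all pairs of growth rates
-/

set_option autoImplicit false

namespace Pool.Agent.PX

/-- one growth rate is a pair of growth rates -/
theorem lengths_one {O : Lang} {lo hi hi' : ℕ → ℕ} (h : LengthsBetween O lo hi)
    (hh : ∀ n, hi n ≤ hi' n) : LengthsConRFN O lo hi' lo hi' := by
  refine ⟨h.1, fun B hB => ?_⟩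
  obtain ⟨⟨p, k, h1, h2⟩, h3⟩ := h.2 B hB
  refine ⟨⟨p, k, h1, fun q m hq => ?_⟩, fun p' k' hp => ?_⟩
  · obtain ⟨c, hc⟩ := h2 q m hq
    refine ⟨c, fun n => ?_⟩
    obtain ⟨⟨l, h4, h5⟩, l', h6, h7⟩ := hc n
    exact ⟨⟨l', h6, h7.trans (Nat.add_le_add_right (hh n) c)⟩,
      l, h4, h5.trans (Nat.add_le_add_right (hh n) c)⟩
  · obtain ⟨q, m, h4, h5⟩ := h3 p' k' hp
    refine ⟨⟨q, m, h4, fun n₀ => ?_⟩, q, m, h4, fun n₀ => ?_⟩
    · obtain ⟨n, h6, h7⟩ := h5 n₀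
      exact ⟨n, h6, fun l hl => h7 l (Or.inr hl)⟩
    · obtain ⟨n, h6, h7⟩ := h5 n₀
      exact ⟨n, h6, fun l hl => h7 l (Or.inl hl)⟩

end Pool.Agent.PX
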