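import Pool.Agent.Lib_helper10.LEN.Game

/-!
# A pair that changes nothing
-/

set_option autoImplicit false

namespace Pool.Agent.LEN

open Pool.Agent.CK Pool.Agent.RF
open Pool.Agent.LIN (cdw cdw_inj cdw_len padW padW_inj padW_true padW_closed act mem_act cost
  exists_touch exists_free ins ins_iff)

/-- thresholds of antitone predicates -/
theorem exists_thr (L : ℕ) (p : ℕ → Prop) (hp : ∀ k k', k ≤ k' → p k' → p k) :
    ∃ κ ≤ L, ∀ k < L, p k ↔ k < κ := by
  classical
  have hex : ∃ k, ¬ p k ∨ k = L := ⟨L, Or.inr rfl⟩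
  refine ⟨Nat.find hex, Nat.find_min' hex (Or.inr rfl), fun k hk => ⟨fun h => ?_, fun h => ?_⟩⟩
  · by_contra hcon
    have h1 := Nat.not_lt.1 hcon
    rcases Nat.find_spec hex with h2 | h2
    · exact h2 (hp _ _ h1 h)
    · omega
  · have h1 := Nat.find_min hex h
    push Not at h1
    exact h1.1

section

variable {P : Par} {m L M : ℕ} {G : Lang → Prop} {H : Lang} {f : List Bool → List Bool}
  {f' : List Bool → List Bool → List Bool} {w u v : ℕ → List Bool}
  (h : GP P m L M G H f f' w u v)

include h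

theorem exists_stable (hmL : m ≤ L) (hna : ∀ n, n ≤ P.a n) {J : ℕ}
    (hJ : ∀ j, P.g j < L → j < J) (hM : (L + 1) ^ J ≤ M) :
    ∃ a < M, SP P w m L (base H f f' u v a) (base H f f' u v (a + 1)) := by
  classical
  by_contra hno
  push Not at hno
  -- the thresholds
  have h1 : ∀ a j : ℕ, ∃ κ ≤ L, ∀ k < L,
      ConT (join P.R (grow P w m (base H f f' u v a) L)) (P.en j) k ↔ k < κ := fun a j =>
    exists_thr L _ fun k k' hk h2 l hl => h2 l (hl.trans hk)
  choose κ hκ1 hκ2 using h1
  let F : Fin (M + 1) → (Fin J → Fin (L + 1)) := fun a j =>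
    ⟨κ a.1 j.1, Nat.lt_succ_of_le (hκ1 a.1 j.1)⟩
  have hcard : Fintype.card (Fin J → Fin (L + 1)) < Fintype.card (Fin (M + 1)) := by
    rw [Fintype.card_fun, Fintype.card_fin, Fintype.card_fin, Fintype.card_fin]
    omega
  obtain ⟨a, a', hne, hF⟩ := Fintype.exists_ne_map_eq_of_card_lt F hcard
  -- equal thresholds give equal truth values
  have key : ∀ b b' : Fin (M + 1), F b = F b' →
      SP P w m L (base H f f' u v b.1) (base H f f' u v b'.1) := by
    intro b b' hbb t ht1 ht2
    have hb := wd_base h (Nat.lt_succ_iff.1 b.2)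
    have hb' := wd_base h (Nat.lt_succ_iff.1 b'.2)
    refine samePat_of h hb hb' ht1 ht2 fun j k n hj hk hn => ?_
    have hnt := hna n
    have hjJ : j < J := hJ j (by omega)
    have e1 : ∀ c : Fin (M + 1), Wd P w m L H (base H f f' u v c.1) →
        ((RF.Con (P.en j) k).True (join P.R (grow P w m (base H f f' u v c.1) t)) ↔
          k < κ c.1 j) := by
      intro c hc
      have e2 : (RF.Con (P.en j) k).True (join P.R (grow P w m (base H f f' u v c.1) t)) ↔
          (RF.Con (P.en j) k).True (join P.R (grow P w m (base H f f' u v c.1) L)) :=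
        Sq.true_stages (gsq_ok hc.1) (n := t) (t := L) ht1 ht2.le le_rfl (j := j) (k := k)
          (by omega) (by omega) (Or.inl rfl)
      rw [e2, con_true]
      exact hκ2 c.1 j k (by omega)
    have e3 : κ b.1 j = κ b'.1 j := by
      have := congrFun hbb ⟨j, hjJ⟩
      exact congrArg Fin.val this
    rw [e1 b hb, e1 b' hb', e3]
  rcases lt_or_gt_of_ne (fun h' : a.1 = a'.1 => hne (Fin.ext h')) with h2 | h2
  · exact (dec_chain h hno h2 (Nat.lt_succ_iff.1 a'.2)).not_sp (key a a' hF)
  · exact (dec_chain h hno h2 (Nat.lt_succ_iff.1 a.2)).not_sp (key a' a hF.symm)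

/-- all sentences are old: nothing changes -/
theorem stable_old (hold : ∀ n, P.a n < L → n < m) {a : ℕ} (ha : a < M) :
    SP P w m L (base H f f' u v a) (basep H f f' u v a) := by
  intro t ht1 ht2
  refine samePat_of h (wd_base h ha.le) (wd_basep h ha) ht1 ht2 fun j k n hj hk hn => ?_
  have hnm := hold n (by omega)
  rw [old_iff (wd_base h ha.le) hnm hj hk (Or.inl rfl) ht1 ht2.le,
    old_iff (wd_basep h ha) hnm hj hk (Or.inl rfl) ht1 ht2.le]

end

end Pool.Agent.LEN
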