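import Pool.Agent.Lib_helper10.LEN.Cert
import Pool.Agent.Lib_helper10.LEN.Avoid

/-!
# Words, flags and witnesses without accidents
-/

set_option autoImplicit false

namespace Pool.Agent.LEN

open Pool.Agent.CK Pool.Agent.RF
open Pool.Agent.LIN (cdw cdw_inj cdw_len padW padW_inj padW_true padW_closed act mem_act cost
  exists_touch exists_free ins ins_iff)

/-- the set `H` with the first `i` pairs -/
noncomputable def base (H : Lang) (f : List Bool → List Bool)
    (f' : List Bool → List Bool → List Bool) (u v : ℕ → List Bool) : ℕ → Lang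
  | 0 => H
  | i + 1 => ins (f' (u i) (v i)) (ins (f (u i)) (base H f f' u v i))

/-- the set `H` with the first `i` pairs and one more flag -/
noncomputable def basep (H : Lang) (f : List Bool → List Bool)
    (f' : List Bool → List Bool → List Bool) (u v : ℕ → List Bool) (i : ℕ) : Lang :=
  ins (f (u i)) (base H f f' u v i)

theorem base_congr {H : Lang} {f : List Bool → List Bool} {f' : List Bool → List Bool → List Bool}
    {u v u' v' : ℕ → List Bool} {i : ℕ} (h : ∀ a < i, u a = u' a ∧ v a = v' a) :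
    base H f f' u v i = base H f f' u' v' i := by
  induction i with
  | zero => rfl
  | succ i ih =>
    have h1 := h i (Nat.lt_succ_self i)
    show ins (f' (u i) (v i)) (ins (f (u i)) (base H f f' u v i)) =
      ins (f' (u' i) (v' i)) (ins (f (u' i)) (base H f f' u' v' i))
    rw [ih fun a ha => h a (by omega), h1.1, h1.2]

/-- the coordinates -/
def Om (m L M : ℕ) : Fin L ⊕ (Fin M ⊕ Fin M) → Type
  | .inl t => List.Vector Bool (4 * t.1 + 7)
  | .inr _ => List.Vector Bool (4 * m - 1)

noncomputable instance (m L M : ℕ) : ∀ i, Fintype (Om m L M i)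
  | .inl _ => by unfold Om; infer_instance
  | .inr _ => by unfold Om; infer_instance

section

variable {m L M : ℕ}

/-- the words of a point -/
def wx (x : (i : Fin L ⊕ (Fin M ⊕ Fin M)) → Om m L M i) (t : ℕ) : List Bool :=
  if h : t < L then (show List.Vector Bool (4 * t + 7) from x (.inl ⟨t, h⟩)).1 else []

/-- the words for the flags -/
def ux (x : (i : Fin L ⊕ (Fin M ⊕ Fin M)) → Om m L M i) (a : ℕ) : List Bool :=
  if h : a < M then (show List.Vector Bool (4 * m - 1) from x (.inr (.inl ⟨a, h⟩))).1 else []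

/-- the words for the witnesses -/
def vx (x : (i : Fin L ⊕ (Fin M ⊕ Fin M)) → Om m L M i) (a : ℕ) : List Bool :=
  if h : a < M then (show List.Vector Bool (4 * m - 1) from x (.inr (.inr ⟨a, h⟩))).1 else []

variable (x : (i : Fin L ⊕ (Fin M ⊕ Fin M)) → Om m L M i)

theorem wx_update_l {t : Fin L} {y : Om m L M (.inl t)} {s : ℕ} (hs : s ≠ t.1) :
    wx (Function.update x (.inl t) y) s = wx x s := by
  unfold wx
  by_cases h : s < L
  · rw [dif_pos h, dif_pos h, Function.update_of_ne]
    intro h'
    exact hs (congrArg Fin.val (Sum.inl.inj h'))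
  · rw [dif_neg h, dif_neg h]

theorem wx_update_r {z : Fin M ⊕ Fin M} {y : Om m L M (.inr z)} :
    wx (Function.update x (.inr z) y) = wx x := by
  funext s
  unfold wx
  by_cases h : s < L
  · rw [dif_pos h, dif_pos h, Function.update_of_ne (by simp)]
  · rw [dif_neg h, dif_neg h]

theorem ux_update_l {t : Fin L} {y : Om m L M (.inl t)} :
    ux (Function.update x (.inl t) y) = ux x := by
  funext s
  unfold ux
  by_cases h : s < M
  · rw [dif_pos h, dif_pos h, Function.update_of_ne (by simp)]
  · rw [dif_neg h, dif_neg h]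

theorem vx_update_l {t : Fin L} {y : Om m L M (.inl t)} :
    vx (Function.update x (.inl t) y) = vx x := by
  funext s
  unfold vx
  by_cases h : s < M
  · rw [dif_pos h, dif_pos h, Function.update_of_ne (by simp)]
  · rw [dif_neg h, dif_neg h]

theorem ux_update_u {a : Fin M} {y : Om m L M (.inr (.inl a))} {s : ℕ} (hs : s ≠ a.1) :
    ux (Function.update x (.inr (.inl a)) y) s = ux x s := by
  unfold ux
  by_cases h : s < M
  · rw [dif_pos h, dif_pos h, Function.update_of_ne]
    intro h'
    exact hs (congrArg Fin.val (Sum.inl.inj (Sum.inr.inj h')))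
  · rw [dif_neg h, dif_neg h]

theorem vx_update_u {a : Fin M} {y : Om m L M (.inr (.inl a))} :
    vx (Function.update x (.inr (.inl a)) y) = vx x := by
  funext s
  unfold vx
  by_cases h : s < M
  · rw [dif_pos h, dif_pos h, Function.update_of_ne (by simp)]
  · rw [dif_neg h, dif_neg h]

theorem ux_update_v {a : Fin M} {y : Om m L M (.inr (.inr a))} :
    ux (Function.update x (.inr (.inr a)) y) = ux x := by
  funext s
  unfold ux
  by_cases h : s < M
  · rw [dif_pos h, dif_pos h, Function.update_of_ne (by simp)]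
  · rw [dif_neg h, dif_neg h]

theorem vx_update_v {a : Fin M} {y : Om m L M (.inr (.inr a))} {s : ℕ} (hs : s ≠ a.1) :
    vx (Function.update x (.inr (.inr a)) y) s = vx x s := by
  unfold vx
  by_cases h : s < M
  · rw [dif_pos h, dif_pos h, Function.update_of_ne]
    intro h'
    exact hs (congrArg Fin.val (Sum.inr.inj (Sum.inr.inj h')))
  · rw [dif_neg h, dif_neg h]

end

open Classical in
/-- the words in `B` -/
noncomputable def bW (k : ℕ) (B : Finset (List Bool)) : Finset (List.Vector Bool k) :=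
  Finset.univ.filter fun y => y.1 ∈ B

open Classical in
/-- the words in `I` and the words whose image is in `Q` -/
noncomputable def bU (k : ℕ) (f : List Bool → List Bool) (Q I : Finset (List Bool)) :
    Finset (List.Vector Bool k) := Finset.univ.filter fun y => true :: f y.1 ∈ Q ∨ y.1 ∈ I

theorem mem_bW {k : ℕ} {B : Finset (List Bool)} {y : List.Vector Bool k} :
    y ∈ bW k B ↔ y.1 ∈ B := by
  classical
  unfold bW
  rw [Finset.mem_filter]
  exact ⟨fun h => h.2, fun h => ⟨Finset.mem_univ _, h⟩⟩

theorem mem_bU {k : ℕ} {f : List Bool → List Bool} {Q I : Finset (List Bool)}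
    {y : List.Vector Bool k} : y ∈ bU k f Q I ↔ true :: f y.1 ∈ Q ∨ y.1 ∈ I := by
  classical
  unfold bU
  rw [Finset.mem_filter]
  exact ⟨fun h => h.2, fun h => ⟨Finset.mem_univ _, h⟩⟩

theorem not_bW {k : ℕ} {B : Finset (List Bool)} (y : List.Vector Bool k) (h : y ∉ bW k B) :
    y.1 ∉ B := fun h' => h (mem_bW.2 h')

theorem not_bU {k : ℕ} {f : List Bool → List Bool} {Q I : Finset (List Bool)}
    (y : List.Vector Bool k) (h : y ∉ bU k f Q I) : ¬ (true :: f y.1 ∈ Q ∨ y.1 ∈ I) :=
  fun h' => h (mem_bU.2 h')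

theorem bW_card (k : ℕ) (B : Finset (List Bool)) : (bW k B).card ≤ B.card := by
  classical
  exact Finset.card_le_card_of_injOn (fun y => y.1) (fun y hy => mem_bW.1 hy)
    fun y _ y' _ h => Subtype.ext h

theorem bU_card (k : ℕ) {f : List Bool → List Bool} (hf : ∀ u u', f u = f u' → u = u')
    (Q I : Finset (List Bool)) : (bU k f Q I).card ≤ Q.card + I.card := by
  classical
  have h1 : bU k f Q I ⊆ (bU k f Q ∅) ∪ bW k I := by
    intro y hy
    rw [Finset.mem_union, mem_bU, mem_bW]
    rcases mem_bU.1 hy with h | h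
    · exact Or.inl (Or.inl h)
    · exact Or.inr h
  have h2 : (bU k f Q ∅).card ≤ Q.card := by
    refine Finset.card_le_card_of_injOn (fun y => true :: f y.1) (fun y hy => ?_)
      fun y _ y' _ h => Subtype.ext (hf _ _ (List.cons.inj h).2)
    exact (mem_bU.1 hy).resolve_right (Finset.notMem_empty _)
  exact (Finset.card_le_card h1).trans ((Finset.card_union_le _ _).trans
    (Nat.add_le_add h2 (bW_card k I)))

section

variable {P : Par} (hg : StrictMono P.g)
  (hcost : ∀ s N, P.g s ≤ N → cost P.en (s + 1) N < 2 ^ N) (hna : ∀ n, n ≤ P.a n)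
  {m L M : ℕ} (hd : cdep P L ≤ 2 ^ m) {G : Lang → Prop} (hG : CertG m G)
  (hL : L ≤ 2 ^ m) (hM : M ≤ 2 ^ m) (hm : 8 ≤ m)
  (H : Lang) {f : List Bool → List Bool} {f' : List Bool → List Bool → List Bool}
  (hf : ∀ u u', f u = f u' → u = u') (hf' : ∀ u v v', f' u v = f' u v' → v = v')

include hg hcost hna hd hG hL hM hm hf hf' in
theorem good_point : ∃ w u v : ℕ → List Bool,
    (∀ a < M, (u a).length = 4 * m - 1 ∧ (v a).length = 4 * m - 1) ∧
    (∀ a a', a' < a → a < M → u a' ≠ u a) ∧
    (∀ a ≤ M, GoodG P w m L (base H f f' u v a)) ∧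
    (∀ a ≤ M, GoodG P w m L (basep H f f' u v a)) ∧
    (∀ a < M, ∃ Q, Cert P w m L G (base H f f' u v a) Q ∧ true :: f (u a) ∉ Q ∧
      true :: f' (u a) (v a) ∉ Q) ∧
    (∀ a < M, ∃ Q, Cert P w m L G (basep H f f' u v a) Q ∧ true :: f' (u a) (v a) ∉ Q) := by
  classical
  choose BW hBW1 hBW2 using fun t O => bad_words hg hcost t O
  choose QQ hQQ1 hQQ2 using fun w A => exists_cert hg hcost hna hd hG w A
  -- the bad sets
  set BU : ((i : Fin L ⊕ (Fin M ⊕ Fin M)) → Om m L M i) → ℕ → Finset (List Bool) := fun x t =>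
    (Finset.range (M + 1)).biUnion fun a =>
      BW t (join P.R (grow P (wx x) m (base H f f' (ux x) (vx x) a) t)) ∪
      BW t (join P.R (grow P (wx x) m (basep H f f' (ux x) (vx x) a) t)) with hBU
  let Bad : (i : Fin L ⊕ (Fin M ⊕ Fin M)) → ((j : Fin L ⊕ (Fin M ⊕ Fin M)) → Om m L M j) →
      Finset (Om m L M i) := fun i x => match i with
    | .inl t => bW (4 * t.1 + 7) (if m ≤ t.1 then BU x t.1 else ∅)
    | .inr (.inl a) => bU (4 * m - 1) f (QQ (wx x) (base H f f' (ux x) (vx x) a.1))
        ((Finset.range a.1).image (ux x))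
    | .inr (.inr a) => bU (4 * m - 1) (f' (ux x a.1)) (QQ (wx x) (base H f f' (ux x) (vx x) a.1) ∪
        QQ (wx x) (basep H f f' (ux x) (vx x) a.1)) ∅
  have hind : ∀ i x y, Bad i (Function.update x i y) = Bad i x := by
    intro i x y
    match i, y with
    | .inl t, y =>
      have e1 : BU (Function.update x (.inl t) y) t.1 = BU x t.1 := by
        simp only [hBU, ux_update_l, vx_update_l]
        refine Finset.biUnion_congr rfl fun a _ => ?_
        have e2 : ∀ A, grow P (wx (Function.update x (.inl t) y)) m A t.1 =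
            grow P (wx x) m A t.1 := fun A => grow_congr fun s _ hs => wx_update_l x hs.ne
        rw [e2, e2]
      show bW _ _ = bW _ _
      rw [e1]
    | .inr (.inl a), y =>
      have e1 : base H f f' (ux (Function.update x (.inr (.inl a)) y))
          (vx (Function.update x (.inr (.inl a)) y)) a.1 = base H f f' (ux x) (vx x) a.1 :=
        base_congr fun s hs => ⟨ux_update_u x hs.ne, by rw [vx_update_u]⟩
      have e2 : (Finset.range a.1).image (ux (Function.update x (.inr (.inl a)) y)) =
          (Finset.range a.1).image (ux x) :=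
        Finset.image_congr fun s hs => ux_update_u x (Finset.mem_range.1 hs).ne
      show bU _ _ _ _ = bU _ _ _ _
      rw [e1, e2, wx_update_r]
    | .inr (.inr a), y =>
      have e1 : base H f f' (ux (Function.update x (.inr (.inr a)) y))
          (vx (Function.update x (.inr (.inr a)) y)) a.1 = base H f f' (ux x) (vx x) a.1 :=
        base_congr fun s hs => ⟨by rw [ux_update_v], vx_update_v x hs.ne⟩
      have e2 : basep H f f' (ux (Function.update x (.inr (.inr a)) y))
          (vx (Function.update x (.inr (.inr a)) y)) a.1 = basep H f f' (ux x) (vx x) a.1 := by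
        unfold basep
        rw [e1, ux_update_v]
      show bU _ _ _ _ = bU _ _ _ _
      rw [e1, e2, wx_update_r, ux_update_v]
  -- the numbers
  have hn : Fintype.card (Fin L ⊕ (Fin M ⊕ Fin M)) = L + (M + M) := by
    rw [Fintype.card_sum, Fintype.card_sum, Fintype.card_fin, Fintype.card_fin]
  have p1 : 2 ^ (m + 2) = 4 * 2 ^ m := by rw [pow_add]; ring
  have hcount : L + (M + M) ≤ 2 ^ (m + 2) := by omega
  have hcard : ∀ i x, Fintype.card (Fin L ⊕ (Fin M ⊕ Fin M)) * (Bad i x).card <
      Fintype.card (Om m L M i) := by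
    intro i x
    rw [hn]
    match i with
    | .inl t =>
      have e0 : Fintype.card (Om m L M (.inl t)) = 2 ^ (4 * t.1 + 7) := by
        have : Fintype.card (List.Vector Bool (4 * t.1 + 7)) = 2 ^ (4 * t.1 + 7) := by
          rw [card_vector, Fintype.card_bool]
        rw [← this]
        exact Fintype.card_congr (Equiv.refl _)
      rw [e0]
      show _ * (bW _ _).card < _
      have e1 := bW_card (4 * t.1 + 7) (if m ≤ t.1 then BU x t.1 else ∅)
      by_cases ht : m ≤ t.1
      · rw [if_pos ht] at e1 ⊢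
        have e2 : (BU x t.1).card ≤ (M + 1) * (2 * 2 ^ (2 * t.1 + 2)) := by
          rw [hBU]
          refine Finset.card_biUnion_le.trans ((Finset.sum_le_card_nsmul _ _
            (2 * 2 ^ (2 * t.1 + 2)) fun a _ => ?_).trans
            (le_of_eq (by rw [Finset.card_range, smul_eq_mul])))
          refine (Finset.card_union_le _ _).trans ?_
          have := hBW1 t.1 (join P.R (grow P (wx x) m (base H f f' (ux x) (vx x) a) t.1))
          have := hBW1 t.1 (join P.R (grow P (wx x) m (basep H f f' (ux x) (vx x) a) t.1))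
          omega
        have e3 : (M + 1) * (2 * 2 ^ (2 * t.1 + 2)) ≤ 2 ^ (m + 1) * 2 ^ (2 * t.1 + 3) := by
          refine Nat.mul_le_mul ?_ (le_of_eq (by rw [← pow_succ']))
          have : 2 ^ (m + 1) = 2 * 2 ^ m := by rw [pow_succ']
          have := Nat.one_le_two_pow (n := m)
          omega
        calc (L + (M + M)) * (bW (4 * t.1 + 7) (BU x t.1)).card
            ≤ 2 ^ (m + 2) * (2 ^ (m + 1) * 2 ^ (2 * t.1 + 3)) :=
              Nat.mul_le_mul hcount ((e1.trans e2).trans e3)
          _ = 2 ^ ((m + 2) + ((m + 1) + (2 * t.1 + 3))) := by rw [← pow_add, ← pow_add]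
          _ < 2 ^ (4 * t.1 + 7) := Nat.pow_lt_pow_right (by norm_num) (by omega)
      · rw [if_neg ht] at e1 ⊢
        rw [Finset.card_empty] at e1
        have e2 : (bW (4 * t.1 + 7) ∅).card = 0 := by omega
        rw [e2, Nat.mul_zero]
        positivity
    | .inr (.inl a) =>
      have e0 : Fintype.card (Om m L M (.inr (.inl a))) = 2 ^ (4 * m - 1) := by
        have : Fintype.card (List.Vector Bool (4 * m - 1)) = 2 ^ (4 * m - 1) := by
          rw [card_vector, Fintype.card_bool]
        rw [← this]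
        exact Fintype.card_congr (Equiv.refl _)
      rw [e0]
      show _ * (bU _ _ _ _).card < _
      have e1 := bU_card (4 * m - 1) hf (QQ (wx x) (base H f f' (ux x) (vx x) a.1))
        ((Finset.range a.1).image (ux x))
      have e2 := hQQ1 (wx x) (base H f f' (ux x) (vx x) a.1)
      have e3 : ((Finset.range a.1).image (ux x)).card ≤ M :=
        Finset.card_image_le.trans (by rw [Finset.card_range]; exact a.2.le)
      have e4 : 2 ^ m ≤ 2 ^ (2 * m + 3) := Nat.pow_le_pow_right (by norm_num) (by omega)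
      have e5 : 2 ^ (2 * m + 4) = 2 * 2 ^ (2 * m + 3) := by rw [← pow_succ']
      calc (L + (M + M)) * _ ≤ 2 ^ (m + 2) * 2 ^ (2 * m + 4) :=
            Nat.mul_le_mul hcount (e1.trans (by omega))
        _ = 2 ^ ((m + 2) + (2 * m + 4)) := by rw [← pow_add]
        _ < 2 ^ (4 * m - 1) := Nat.pow_lt_pow_right (by norm_num) (by omega)
    | .inr (.inr a) =>
      have e0 : Fintype.card (Om m L M (.inr (.inr a))) = 2 ^ (4 * m - 1) := by
        have : Fintype.card (List.Vector Bool (4 * m - 1)) = 2 ^ (4 * m - 1) := by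
          rw [card_vector, Fintype.card_bool]
        rw [← this]
        exact Fintype.card_congr (Equiv.refl _)
      rw [e0]
      show _ * (bU _ _ _ _).card < _
      have e1 := bU_card (4 * m - 1) (hf' (ux x a.1))
        (QQ (wx x) (base H f f' (ux x) (vx x) a.1) ∪
        QQ (wx x) (basep H f f' (ux x) (vx x) a.1)) ∅
      have e2 := hQQ1 (wx x) (base H f f' (ux x) (vx x) a.1)
      have e3 := hQQ1 (wx x) (basep H f f' (ux x) (vx x) a.1)
      have e4 := Finset.card_union_le (QQ (wx x) (base H f f' (ux x) (vx x) a.1))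
        (QQ (wx x) (basep H f f' (ux x) (vx x) a.1))
      have e5 : 2 ^ (2 * m + 4) = 2 * 2 ^ (2 * m + 3) := by rw [← pow_succ']
      rw [Finset.card_empty] at e1
      calc (L + (M + M)) * _ ≤ 2 ^ (m + 2) * 2 ^ (2 * m + 4) :=
            Nat.mul_le_mul hcount (e1.trans (by omega))
        _ = 2 ^ ((m + 2) + (2 * m + 4)) := by rw [← pow_add]
        _ < 2 ^ (4 * m - 1) := Nat.pow_lt_pow_right (by norm_num) (by omega)
  have hne : Nonempty ((i : Fin L ⊕ (Fin M ⊕ Fin M)) → Om m L M i) :=
    ⟨fun i => match i with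
      | .inl t => (⟨List.replicate _ false, List.length_replicate⟩ :
          List.Vector Bool (4 * t.1 + 7))
      | .inr (.inl a) => (⟨List.replicate _ false, List.length_replicate⟩ :
          List.Vector Bool (4 * m - 1))
      | .inr (.inr a) => (⟨List.replicate _ false, List.length_replicate⟩ :
          List.Vector Bool (4 * m - 1))⟩
  obtain ⟨x, hx⟩ := avoid Bad hind hcard hne
  have hw : ∀ t, m ≤ t → t < L → wx x t ∉ BU x t ∧ (wx x t).length = 4 * t + 7 := by
    intro t ht1 ht2
    have h1 := not_bW (k := 4 * t + 7) (B := if m ≤ t then BU x t else ∅) (x (.inl ⟨t, ht2⟩))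
      (hx (.inl ⟨t, ht2⟩))
    rw [if_pos ht1] at h1
    have e1 : wx x t = (show List.Vector Bool (4 * t + 7) from x (.inl ⟨t, ht2⟩)).1 := by
      unfold wx
      rw [dif_pos ht2]
    rw [e1]
    exact ⟨h1, (show List.Vector Bool (4 * t + 7) from x (.inl ⟨t, ht2⟩)).2⟩
  have hu : ∀ a (ha : a < M), (ux x a).length = 4 * m - 1 ∧
      ux x a = (show List.Vector Bool (4 * m - 1) from x (.inr (.inl ⟨a, ha⟩))).1 := by
    intro a ha
    have e1 : ux x a = (show List.Vector Bool (4 * m - 1) from x (.inr (.inl ⟨a, ha⟩))).1 := by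
      unfold ux
      rw [dif_pos ha]
    refine ⟨?_, e1⟩
    rw [e1]
    exact (show List.Vector Bool (4 * m - 1) from x (.inr (.inl ⟨a, ha⟩))).2
  have hv : ∀ a (ha : a < M), (vx x a).length = 4 * m - 1 ∧
      vx x a = (show List.Vector Bool (4 * m - 1) from x (.inr (.inr ⟨a, ha⟩))).1 := by
    intro a ha
    have e1 : vx x a = (show List.Vector Bool (4 * m - 1) from x (.inr (.inr ⟨a, ha⟩))).1 := by
      unfold vx
      rw [dif_pos ha]
    refine ⟨?_, e1⟩
    rw [e1]
    exact (show List.Vector Bool (4 * m - 1) from x (.inr (.inr ⟨a, ha⟩))).2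
  have hbu : ∀ a (ha : a < M), ¬ (true :: f (ux x a) ∈
      QQ (wx x) (base H f f' (ux x) (vx x) a) ∨ ux x a ∈ (Finset.range a).image (ux x)) := by
    intro a ha
    have h1 := not_bU (k := 4 * m - 1) (f := f) (Q := QQ (wx x) (base H f f' (ux x) (vx x) a))
      (I := (Finset.range a).image (ux x)) (x (.inr (.inl ⟨a, ha⟩))) (hx (.inr (.inl ⟨a, ha⟩)))
    rw [(hu a ha).2]
    exact h1
  have hbv : ∀ a (ha : a < M), true :: f' (ux x a) (vx x a) ∉
      QQ (wx x) (base H f f' (ux x) (vx x) a) ∪ QQ (wx x) (basep H f f' (ux x) (vx x) a) := by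
    intro a ha
    have h1 := not_bU (k := 4 * m - 1) (f := f' (ux x a))
      (Q := QQ (wx x) (base H f f' (ux x) (vx x) a) ∪
        QQ (wx x) (basep H f f' (ux x) (vx x) a)) (I := ∅) (x (.inr (.inr ⟨a, ha⟩)))
      (hx (.inr (.inr ⟨a, ha⟩)))
    rw [(hv a ha).2]
    exact fun h2 => h1 (Or.inl h2)
  refine ⟨wx x, ux x, vx x, fun a ha => ⟨(hu a ha).1, (hv a ha).1⟩, ?_, ?_, ?_, ?_, ?_⟩
  · intro a a' ha' ha h1
    exact hbu a ha (Or.inr (Finset.mem_image.2 ⟨a', Finset.mem_range.2 ha', h1⟩))
  · intro a ha t ht1 ht2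
    obtain ⟨h1, h2⟩ := hw t ht1 ht2
    refine hBW2 t _ _ h2 fun h3 => h1 ?_
    rw [hBU]
    exact Finset.mem_biUnion.2 ⟨a, Finset.mem_range.2 (by omega), Finset.mem_union_left _ h3⟩
  · intro a ha t ht1 ht2
    obtain ⟨h1, h2⟩ := hw t ht1 ht2
    refine hBW2 t _ _ h2 fun h3 => h1 ?_
    rw [hBU]
    exact Finset.mem_biUnion.2 ⟨a, Finset.mem_range.2 (by omega), Finset.mem_union_right _ h3⟩
  · intro a ha
    exact ⟨_, hQQ2 _ _, fun h => hbu a ha (Or.inl h),
      fun h => hbv a ha (Finset.mem_union_left _ h)⟩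
  · intro a ha
    exact ⟨_, hQQ2 _ _, fun h => hbv a ha (Finset.mem_union_right _ h)⟩

end

end Pool.Agent.LEN
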