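import Pool.Agent.Lib_helper10.LIN.Act
import Pool.Agent.Lib_helper78.RF.F.SEM
import Pool.Agent.Lib_helper78.RF.F.DEP

/-!
# Codes and plants in the order of the lengths
-/

set_option autoImplicit false

namespace Pool.Agent.LEN

open Pool.Agent.CK Pool.Agent.RF
open Pool.Agent.LIN (cdw cdw_inj cdw_len padW padW_inj padW_true padW_closed act mem_act cost
  exists_touch exists_free)

/-- the data -/
structure Par where
  /-- the given oracle -/
  R : Lang
  /-- the theories -/
  en : ℕ → Th
  /-- the first stages -/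
  g : ℕ → ℕ
  /-- the lengths for consistency -/
  a : ℕ → ℕ
  /-- the lengths for reflection -/
  b : ℕ → ℕ

/-- the same computations of the theories which are active at time `t`, in the range of time `t` -/
def SameR (P : Par) (t : ℕ) (O O' : Lang) : Prop :=
  ∀ j, P.g j ≤ t → ∀ s : List Bool, s.length ≤ t + 1 → ∀ c ≤ clkS (P.en j).2 t,
    run O' (P.en j).1 s [] c = run O (P.en j).1 s [] c

theorem SameR.symm {P : Par} {t : ℕ} {O O' : Lang} (h : SameR P t O O') : SameR P t O' O :=
  fun j hj s hs c hc => (h j hj s hs c hc).symm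

theorem SameR.trans {P : Par} {t : ℕ} {O O' O'' : Lang} (h : SameR P t O O')
    (h' : SameR P t O' O'') : SameR P t O O'' :=
  fun j hj s hs c hc => (h' j hj s hs c hc).trans (h j hj s hs c hc)

theorem SameR.mono {P : Par} {t t' : ℕ} (ht : t ≤ t') {O O' : Lang} (h : SameR P t' O O') :
    SameR P t O O' :=
  fun j hj s hs c hc => h j (hj.trans ht) s (by omega) c (hc.trans (QRY_clkS_mono _ ht))

/-- the sentences of time `t` -/
def Sent (P : Par) (t : ℕ) (σ : Fm) : Prop :=
  ∃ j k n : ℕ, P.g j ≤ n ∧ k ≤ n ∧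
    ((P.a n = t ∧ σ = RF.Con (P.en j) k) ∨ (P.b n = t ∧ σ = RFN (P.en j) k))

theorem sent_closed {P : Par} {t : ℕ} {σ : Fm} (h : Sent P t σ) : σ.Closed := by
  obtain ⟨j, k, n, -, -, ⟨-, h⟩ | ⟨-, h⟩⟩ := h
  · rw [h]; exact closed_Con _ _
  · rw [h]; exact closed_RFN _ _

/-- the word `w` is good at time `t` -/
def GoodW (P : Par) (t : ℕ) (O : Lang) (w : List Bool) : Prop :=
  w.length = 4 * t + 7 ∧
  ∀ O' : Lang, (∀ q, (∀ φ, q ≠ true :: cdw w φ) → O' q = O q) → SameR P t O O'

open Classical in
/-- the codes of time `t` are added -/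
noncomputable def stp (P : Par) (w : List Bool) (t : ℕ) (A : Lang) : Lang := fun x =>
  A x || decide (∃ σ, Sent P t σ ∧ σ.True (join P.R A) ∧ x = cdw w σ)

theorem stp_iff (P : Par) (w : List Bool) (t : ℕ) (A : Lang) (x : List Bool) :
    stp P w t A x = true ↔ A x = true ∨ ∃ σ, Sent P t σ ∧ σ.True (join P.R A) ∧ x = cdw w σ := by
  classical
  unfold stp
  rw [Bool.or_eq_true, decide_eq_true_eq]

/-- sequences -/
structure Sq where
  /-- before the plants of time `t` -/
  HS : ℕ → Lang
  /-- after the plants of time `t` -/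
  AS : ℕ → Lang
  /-- the words -/
  w : ℕ → List Bool

/-! ## Truth depends on the small range -/

theorem tproof_congr {P : Par} {j k : ℕ} (hj : P.g j ≤ k) {O O' : Lang} (h : SameR P k O O')
    {l : List Fm} (hl : Nat.size (val (pEnc l)) ≤ k) :
    TProof O (P.en j) l ↔ TProof O' (P.en j) l := by
  have h1 : ∀ σ ∈ l, (Accepts O (P.en j).1 σ.enc []
        (clkS (P.en j).2 (Nat.size (val (pEnc l)))) ↔
      Accepts O' (P.en j).1 σ.enc [] (clkS (P.en j).2 (Nat.size (val (pEnc l))))) := by
    intro σ hσ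
    unfold Accepts
    have h2 := DEP_mem_len hσ
    have h3 := (size_val (pEnc l)).1
    rw [h j hj σ.enc (by omega) _ (QRY_clkS_mono _ hl)]
  unfold TProof
  exact ⟨isProof_mono fun σ hσ h => (h1 σ hσ).1 h, isProof_mono fun σ hσ h => (h1 σ hσ).2 h⟩

theorem rfn_congr {P : Par} {n j k : ℕ} (hj : P.g j ≤ n) (hk : k ≤ n) {O O' : Lang}
    (h : SameR P n O O') (ha : Agree (4 * n + 2) O O') :
    RfnT O (P.en j) k ↔ RfnT O' (P.en j) k := by
  unfold RfnT
  refine forall_congr' fun e => forall_congr' fun x => forall_congr' fun z =>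
    forall_congr' fun l => ?_
  refine imp_congr_right fun _ => ?_
  refine imp_congr_right fun hx => imp_congr_right fun hz => imp_congr_right fun hl => ?_
  refine imp_congr (tproof_congr hj h (hl.trans hk)) (MuT_congr ?_)
  exact DEP_agree_mono (by omega) ha

theorem con_congr {P : Par} {n j k : ℕ} (hj : P.g j ≤ n) (hk : k ≤ n) {O O' : Lang}
    (h : SameR P n O O') : ConT O (P.en j) k ↔ ConT O' (P.en j) k := by
  unfold ConT
  refine forall_congr' fun l => imp_congr_right fun hl => ?_
  rw [tproof_congr hj h (hl.trans hk)]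

theorem con_true {O : Lang} {T : Th} {k : ℕ} : (RF.Con T k).True O ↔ ConT O T k :=
  ⟨fun h => (holds_Con O (fun _ => 0) T k).1 (h _), fun h v => (holds_Con O v T k).2 h⟩

theorem rfn_true' {O : Lang} {T : Th} {k : ℕ} : (RFN T k).True O ↔ RfnT O T k :=
  ⟨fun h => (holds_RFN O (fun _ => 0) T k).1 (h _), fun h v => (holds_RFN O v T k).2 h⟩

/-- the sentences of stage `n` depend on the small range of time `n` -/
theorem true_congr {P : Par} {n j k : ℕ} (hj : P.g j ≤ n) (hk : k ≤ n) {O O' : Lang}
    (h : SameR P n O O') (ha : Agree (4 * n + 2) O O') {σ : Fm}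
    (hσ : σ = RF.Con (P.en j) k ∨ σ = RFN (P.en j) k) : σ.True O ↔ σ.True O' := by
  rcases hσ with rfl | rfl
  · rw [con_true, con_true, con_congr hj hk h]
  · rw [rfn_true', rfn_true', rfn_congr hj hk h ha]

theorem agree_join {N : ℕ} {R A A' : Lang} (h : ∀ x : List Bool, x.length + 1 < N → A x = A' x) :
    Agree N (join R A) (join R A') := by
  intro q hq
  rcases q with _ | ⟨b, q⟩
  · rfl
  · cases b with
    | false => rfl
    | true => exact h q (by rw [List.length_cons] at hq; omega)

namespace Sq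

variable {P : Par} (D : Sq)

/-- the oracle after the plants of time `t` -/
def OA (P : Par) (t : ℕ) : Lang := join P.R (D.AS t)

/-- the conditions between the times `m` and `m'` -/
structure OkOn (P : Par) (m m' : ℕ) : Prop where
  step : ∀ t, m ≤ t → t < m' → D.HS (t + 1) = stp P (D.w t) t (D.AS t)
  words : ∀ t, m ≤ t → t < m' → GoodW P t (D.OA P t) (D.w t)
  sub : ∀ t, m < t → t ≤ m' → ∀ x, D.HS t x = true → D.AS t x = true
  new : ∀ t, m < t → t ≤ m' → ∀ x, D.AS t x = true → ¬ D.HS t x = true → 4 * t ≤ x.length + 1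
  keep : ∀ t, m < t → t ≤ m' → SameR P t (join P.R (D.HS t)) (D.OA P t)

variable {D} {m m' : ℕ} (h : D.OkOn P m m')

include h

theorem OkOn.restrict {n n' : ℕ} (hn : m ≤ n) (hn' : n' ≤ m') : D.OkOn P n n' where
  step t h1 h2 := h.step t (by omega) (by omega)
  words t h1 h2 := h.words t (by omega) (by omega)
  sub t h1 h2 := h.sub t (by omega) (by omega)
  new t h1 h2 := h.new t (by omega) (by omega)
  keep t h1 h2 := h.keep t (by omega) (by omega)

theorem AS_mono {n t : ℕ} (hn : m ≤ n) (hnt : n ≤ t) (ht : t ≤ m') {x : List Bool}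
    (hx : D.AS n x = true) : D.AS t x = true := by
  induction t, hnt using Nat.le_induction with
  | base => exact hx
  | succ t hnt ih =>
    refine h.sub _ (by omega) ht _ ?_
    rw [h.step t (by omega) (by omega), stp_iff]
    exact Or.inl (ih (by omega))

theorem AS_short {n t : ℕ} (hn : m ≤ n) (hnt : n ≤ t) (ht : t ≤ m') {x : List Bool}
    (hx : x.length < 4 * n + 3) : D.AS t x = D.AS n x := by
  rw [Bool.eq_iff_iff]
  refine ⟨fun hxt => ?_, fun hxn => AS_mono h hn hnt ht hxn⟩
  induction t, hnt using Nat.le_induction with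
  | base => exact hxt
  | succ t hnt ih =>
    refine ih (by omega) ?_
    by_cases h1 : D.HS (t + 1) x = true
    · rw [h.step t (by omega) (by omega), stp_iff] at h1
      rcases h1 with h1 | ⟨σ, -, -, h1⟩
      · exact h1
      · have h2 := cdw_len (D.w t) σ
        have h3 := (h.words t (by omega) (by omega)).1
        rw [← h1, h3] at h2
        omega
    · have h2 := h.new (t + 1) (by omega) ht x hxt h1
      omega

theorem agree_stage {n t : ℕ} (hn : m ≤ n) (hnt : n ≤ t) (ht : t ≤ m') :
    Agree (4 * n + 4) (D.OA P t) (D.OA P n) :=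
  agree_join fun x hx => AS_short h hn hnt ht (by omega)

theorem run_code {t : ℕ} (hmt : m ≤ t) (ht : t < m') :
    SameR P t (D.OA P t) (join P.R (D.HS (t + 1))) := by
  refine (h.words t hmt ht).2 _ (fun q hq => ?_)
  rcases q with _ | ⟨b, q⟩
  · rfl
  · cases b with
    | false => rfl
    | true =>
      show D.HS (t + 1) q = D.AS t q
      rw [Bool.eq_iff_iff, h.step t hmt ht, stp_iff]
      refine ⟨fun h => h.resolve_right ?_, Or.inl⟩
      rintro ⟨σ, -, -, h3⟩
      exact hq σ (by rw [h3])

theorem run_stages {n t : ℕ} (hn : m ≤ n) (hnt : n ≤ t) (ht : t ≤ m') :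
    SameR P n (D.OA P n) (D.OA P t) := by
  induction t, hnt using Nat.le_induction with
  | base => exact fun _ _ _ _ _ _ => rfl
  | succ t hnt ih =>
    have h1 := ih (by omega)
    have h2 : SameR P n (D.OA P t) (join P.R (D.HS (t + 1))) :=
      (run_code h (by omega) (by omega)).mono hnt
    have h3 : SameR P n (join P.R (D.HS (t + 1))) (D.OA P (t + 1)) :=
      (h.keep (t + 1) (by omega) ht).mono (by omega)
    exact (h1.trans h2).trans h3

/-- the truth of the sentences of stage `n` is final after the plants of time `n` -/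
theorem true_stages {n t : ℕ} (hn : m ≤ n) (hnt : n ≤ t) (ht : t ≤ m') {j k : ℕ}
    (hj : P.g j ≤ n) (hk : k ≤ n) {σ : Fm} (hσ : σ = RF.Con (P.en j) k ∨ σ = RFN (P.en j) k) :
    σ.True (D.OA P n) ↔ σ.True (D.OA P t) :=
  true_congr hj hk (run_stages h hn hnt ht)
    (DEP_agree_mono (by omega) (DEP_agree_symm (agree_stage h hn hnt ht))) hσ

end Sq

end Pool.Agent.LEN
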